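import Pool.Agent.Lib.PolyTime.ListOps

/-!
# Other input and output formats: raw bit strings and single bits

`PT.tm2Fmt` gives `TM2ComputableInPolyTime ea eb f` for all input formats `ea` and output
formats `eb` between which and the tree encoding simple programs translate.
-/

namespace Pool.Agent.PolyTime

open Turing Function Polynomial Computability

universe u v w

variable {α : Type u} {β : Type v} {γ : Type w}

/-- Input formats over bits. -/
def InFmt [Rep α] (ea : α → List Bool) : Prop :=
  ∃ (p : P) (b : Polynomial ℕ), ∀ a, Run p (st (ea a) [] [] [] [] [])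
    (st [] [] (tenc (toT a)) [] [] []) (b.eval (ea a).length)

/-- Output formats over bits. -/
def OutFmt [Rep β] (eb : β → List Bool) : Prop :=
  ∃ (p : P) (b : Polynomial ℕ), ∀ c, Run p (st [] [] (tenc (toT c)) [] [] [])
    (st [] (eb c) [] [] [] []) (b.eval (sz c))

/-- A program from an input stack to an output stack gives a machine. -/
theorem tm2_of_run {α β : Type} {ea : α → List Bool} {eb : β → List Bool} {f : α → β}
    (p : P) (b : Polynomial ℕ)
    (h : ∀ a, Run p (st (ea a) [] [] [] [] []) (st [] (eb (f a)) [] [] [] [])
      (b.eval (ea a).length)) :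
    Nonempty (TM2ComputableInPolyTime ea eb f) := by
  refine ⟨{ tm := machine p
            inputAlphabet := Equiv.refl _
            outputAlphabet := Equiv.refl _
            time := b + 1
            outputsFun := fun a => ?_ }⟩
  have hs : ∃ m, m ≤ b.eval (ea a).length ∧
      ∃ v, Reach (machine p).m m
        ⟨some (machine p).main, (machine p).initialState, st (ea a) [] [] [] [] []⟩
        ⟨some none, v, st [] (eb (f a)) [] [] [] []⟩ := by
    obtain ⟨m, hm, hE⟩ := h a
    obtain ⟨v, hv⟩ := sim (machine p).m hE some none (fun _ => rfl) (fun _ => none)
    exact ⟨m, hm, v, hv⟩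
  classical
  have hm' := Classical.choose_spec hs
  refine
    { steps := Classical.choose hs + 1
      evals_in_steps := ?_
      steps_le_m := ?_ }
  · obtain ⟨v, hv⟩ := hm'.2
    have h3 : Reach (machine p).m 1
        ⟨some none, v, st [] (eb (f a)) [] [] [] []⟩
        ⟨none, fun _ => none, st [] (eb (f a)) [] [] [] []⟩ := Reach.one rfl
    have h4 := hv.trans h3
    have i1 : initList (machine p) (List.map (Equiv.refl _).invFun (ea a)) =
        ⟨some (machine p).main, (machine p).initialState, st (ea a) [] [] [] [] []⟩ := by
      unfold initList
      congr 1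
      funext k
      cases k
      · simp [machine]
      all_goals rfl
    have i2 : haltList (machine p) (List.map (Equiv.refl _).invFun (eb (f a))) =
        ⟨none, fun _ => none, st [] (eb (f a)) [] [] [] []⟩ := by
      unfold haltList
      congr 1
      funext k
      cases k
      · rfl
      · simp [machine]
      all_goals rfl
    unfold Reach at h4
    exact (congrArg (fun z => (flip bind (TM2.step (machine p).m))^[
      Classical.choose hs + 1] (some z)) i1).trans (h4.trans (congrArg some i2.symm))
  · have h5 := hm'.1
    simp only [eval_add, eval_one]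
    omega

theorem InFmt.size_le [Rep α] {ea : α → List Bool} (h : InFmt ea) :
    ∃ q : Polynomial ℕ, ∀ a, sz a ≤ q.eval (ea a).length := by
  obtain ⟨p, b, h⟩ := h
  refine ⟨b, fun a => ?_⟩
  obtain ⟨m, hm, hj⟩ := h a
  have := hj.length_le .dat
  simp only [st_dat, length_tenc, List.length_nil] at this
  unfold sz
  omega

/-- Polynomial-time computability in the sense of Mathlib, for general formats. -/
theorem PT.tm2Fmt {α β : Type} [Rep α] [Rep β] {ea : α → List Bool} {eb : β → List Bool}
    {f : α → β} (hin : InFmt ea) (hout : OutFmt eb) (h : PT f) :
    Nonempty (TM2ComputableInPolyTime ea eb f) := by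
  obtain ⟨r, hr⟩ := hin.size_le
  obtain ⟨q, hq⟩ := h.size_le
  obtain ⟨p0, b0, h0⟩ := hin
  obtain ⟨p1, b1, h1⟩ := hout
  obtain ⟨p, b, h⟩ := h
  refine tm2_of_run (.seq p0 (.seq p p1)) (b0 + (b.comp r + b1.comp (q.comp r))) fun a => ?_
  have g1 := h0 a
  have g2 := h a [] [] [] [] [] []
  rw [List.append_nil, List.append_nil] at g2
  have g3 := h1 (f a)
  refine (Run.seq g1 (Run.seq g2 g3)).mono ?_
  simp only [eval_add, eval_comp]
  have e1 := poly_mono b (hr a)
  have e2 := poly_mono b1 ((hq a).trans (poly_mono q (hr a)))
  unfold sz at e1
  unfold sz at e2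
  unfold sz
  exact Nat.add_le_add_left (Nat.add_le_add e1 e2) _

theorem inFmt_encode [Rep α] : InFmt (encode (α := α)) := by
  refine ⟨.seq (.push .aux none) (.seq inpToAux auxToDat), 4 * X + 3, fun a => ?_⟩
  have r1 : Run (.push .aux none) (st (encode a) [] [] [] [] [])
    (st (encode a) [] [] [none] [] []) 1 := Run.push (by simp)
  have r2 := run_inpToAux [] [] [none] [] [] (encode a)
  have r3 := run_auxToDat [] [] [] [] [] [] (encode a)
  rw [List.append_nil] at r3
  refine (Run.seq r1 (Run.seq r2 r3)).mono ?_
  simp only [eval_add, eval_mul, eval_X, eval_ofNat]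
  omega

theorem outFmt_encode [Rep β] : OutFmt (encode (α := β)) := by
  refine ⟨.seq (.push .aux none) (.seq datToAux auxToOut), 4 * X + 3, fun a => ?_⟩
  have r4 : Run (.push .aux none) (st [] [] (tenc (toT a)) [] [] [])
    (st [] [] (tenc (toT a)) [none] [] []) 1 := Run.push (by simp)
  have r5 := run_datToAux [] [] [none] [] [] (encode a)
  have r6 := run_auxToOut [] [] [] [] [] [] (encode a)
  rw [List.append_nil] at r6
  refine (Run.seq r4 (Run.seq r5 r6)).mono ?_
  simp only [eval_add, eval_mul, eval_X, eval_ofNat, length_encode]
  omega

/-! ### Raw bit strings -/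

/-- Push the code of a bit, as the first element of a list. -/
def pushBit : Option Bool → P
  | some true => .seq (.push .dat (some false)) (.seq (.push .dat (some false))
      (.seq (.push .dat (some true)) (.push .dat (some true))))
  | some false => .seq (.push .dat (some false)) (.push .dat (some true))
  | none => .skip

/-- Build the tree of a bit string from the reversed string on `aux`. -/
def buildBits : P := .loop .aux (fun a => a == none) pushBit

theorem run_buildBits (w : List Bool) : ∀ (l : List Bool),
    Run buildBits (st [] [] (tenc (toT l)) (w.reverse.map some ++ [none]) [] [])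
      (st [] [] (tenc (toT (w ++ l))) [] [] []) (5 * w.length + 1) := by
  induction w using List.reverseRecOn with
  | nil => intro l; exact Run.loop_stop (k := .aux) (a := none) (l := []) rfl rfl (by simp)
  | append_singleton w a ih =>
    intro l
    have h := ih (a :: l)
    have e1 : w ++ [a] ++ l = w ++ a :: l := by simp
    rw [e1]
    refine Run.mono (b := 4 + (5 * w.length + 1) + 1) ?_ (by simp; omega)
    simp only [List.reverse_append, List.reverse_cons, List.reverse_nil, List.nil_append,
      List.map_cons, List.cons_append]
    refine Run.loop_step (k := .aux)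
      (s1 := st [] [] (tenc (toT l)) (w.reverse.map some ++ [none]) [] [])
      (s' := st [] [] (tenc (toT (a :: l))) (w.reverse.map some ++ [none]) [] [])
      (a := some a) rfl rfl (by simp) ?_ h
    cases a with
    | false =>
      refine Run.mono (b := 1 + 1) ?_ (by omega)
      exact Run.seq (Run.push rfl) (Run.push (by simp))
    | true =>
      exact Run.seq (Run.push rfl) (Run.seq (Run.push rfl)
        (Run.seq (Run.push rfl) (Run.push (by simp))))

/-- Raw bit strings as an input format. -/
theorem inFmt_raw : InFmt (fun w : List Bool => w) := by
  refine ⟨.seq (.push .aux none) (.seq inpToAux (.seq (.push .dat (some false)) buildBits)),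
    7 * X + 4, fun w => ?_⟩
  have r1 : Run (.push .aux none) (st w [] [] [] [] []) (st w [] [] [none] [] []) 1 :=
    Run.push (by simp)
  have r2 := run_inpToAux [] [] [none] [] [] w
  have r3 : Run (.push .dat (some false)) (st [] [] [] (w.reverse.map some ++ [none]) [] [])
    (st [] [] (tenc (toT ([] : List Bool))) (w.reverse.map some ++ [none]) [] []) 1 :=
    Run.push (by simp)
  have r4 := run_buildBits w []
  rw [List.append_nil] at r4
  refine (Run.seq r1 (Run.seq r2 (Run.seq r3 r4))).mono ?_
  simp only [eval_add, eval_mul, eval_X, eval_ofNat]
  omega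

/-- Read the bits of a list of bits on `dat` to `aux`. -/
def readBits : P := .loop .dat (fun a => a != some true) fun _ =>
  .popCase .dat fun r => match r.getD none with
    | some true => .seq pop1 (.seq pop1 (.push .aux (some true)))
    | _ => .push .aux (some false)

theorem run_readBits (w : List Bool) : ∀ (e : List (Option Bool)),
    Run readBits (st [] [] (tenc (toT w)) e [] [])
      (st [] [] [] (w.reverse.map some ++ e) [] []) (5 * w.length + 1) := by
  induction w with
  | nil =>
    intro e
    exact Run.loop_stop (k := .dat) (a := some false) (l := []) rfl rfl (by simp)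
  | cons a w ih =>
    intro e
    have h := ih (some a :: e)
    refine Run.mono (b := (3 + 1) + (5 * w.length + 1) + 1) ?_ (by simp; omega)
    simp only [List.reverse_cons, List.map_append, List.map_cons, List.map_nil,
      List.append_assoc, List.cons_append, List.nil_append, toT_cons, tenc_cons]
    refine Run.loop_step (k := .dat)
      (s1 := st [] [] (tenc (toT a) ++ tenc (toT w)) e [] [])
      (s' := st [] [] (tenc (toT w)) (some a :: e) [] [])
      (a := some true) rfl rfl (by simp) ?_ h
    refine Run.popCase ?_
    cases a with
    | false =>
      simp only [st_dat, toT_false, tenc_nil, List.cons_append, List.nil_append,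
        List.head?_cons, Option.getD_some, List.tail_cons, update_dat]
      exact (Run.push (by simp)).mono (by omega)
    | true =>
      simp only [st_dat, toT_true, tenc_nil, tenc_cons, List.cons_append, List.nil_append,
        List.head?_cons, Option.getD_some, List.tail_cons, update_dat]
      exact (Run.seq (run_pop1 _ _ _ _ _ _ _) (Run.seq (run_pop1 _ _ _ _ _ _ _)
        (Run.push (by simp)))).mono (by omega)

/-- Raw bit strings as an output format. -/
theorem outFmt_raw : OutFmt (fun w : List Bool => w) := by
  refine ⟨.seq (.push .aux none) (.seq readBits auxToOut), 7 * X + 3, fun w => ?_⟩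
  have r1 : Run (.push .aux none) (st [] [] (tenc (toT w)) [] [] [])
    (st [] [] (tenc (toT w)) [none] [] []) 1 := Run.push (by simp)
  have r2 := run_readBits w [none]
  have r3 := run_auxToOut [] [] [] [] [] [] w
  rw [List.append_nil] at r3
  refine (Run.seq r1 (Run.seq r2 r3)).mono ?_
  have := length_le_sz w
  simp only [eval_add, eval_mul, eval_X, eval_ofNat]
  omega

/-- Single bits as an output format. -/
theorem outFmt_bool : OutFmt (encodeBool : Bool → List Bool) := by
  refine ⟨.popCase .dat fun r => match r.getD none with
    | some true => .seq pop1 (.seq pop1 (.push .out true))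
    | _ => .push .out false, 4, fun b => ?_⟩
  refine Run.mono (b := 3 + 1) ?_ (by simp)
  refine Run.popCase ?_
  cases b with
  | false =>
    simp only [st_dat, toT_false, tenc_nil, List.head?_cons, Option.getD_some, List.tail_cons,
      update_dat]
    exact (Run.push (by simp [encodeBool])).mono (by omega)
  | true =>
    simp only [st_dat, toT_true, tenc_nil, tenc_cons, List.cons_append, List.nil_append,
      List.head?_cons, Option.getD_some, List.tail_cons, update_dat]
    exact (Run.seq (run_pop1 _ _ _ _ _ _ _) (Run.seq (run_pop1 _ _ _ _ _ _ _)
        (Run.push (by simp [encodeBool])))).mono (by omega)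

/-- Decision problems: a Boolean function in `PT` is decided in polynomial time. -/
theorem PT.tm2Bool {α : Type} [Rep α] {f : α → Bool} (h : PT f) :
    Nonempty (TM2ComputableInPolyTime (encode (α := α)) encodeBool f) :=
  PT.tm2Fmt inFmt_encode outFmt_bool h

/-- Decision problems on raw bit strings. -/
theorem PT.tm2RawBool {f : List Bool → Bool} (h : PT f) :
    Nonempty (TM2ComputableInPolyTime (fun w : List Bool => w) encodeBool f) :=
  PT.tm2Fmt inFmt_raw outFmt_bool h

/-- Functions on raw bit strings. -/
theorem PT.tm2Raw {f : List Bool → List Bool} (h : PT f) :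
    Nonempty (TM2ComputableInPolyTime (fun w : List Bool => w) (fun w : List Bool => w) f) :=
  PT.tm2Fmt inFmt_raw outFmt_raw h

end Pool.Agent.PolyTime
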