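import Pool.Agent.Lib.PolyTime.More

/-!
# More list operations in polynomial time
-/

namespace Pool.Agent.PolyTime

open Function Polynomial

universe u v w

variable {α : Type u} {β : Type v} {γ : Type w} {σ : Type*} {δ : Type*}
variable [Rep α] [Rep β] [Rep γ] [Rep σ] [Rep δ]

/-- Right fold with a size bound (on all tails of the list). -/
theorem PT.foldr {l : α → List β} {f : α → σ} {g : α → β → σ → σ} (hl : PT l) (hf : PT f)
    (hg : PT (fun p : α × (β × σ) => g p.1 p.2.1 p.2.2)) {B : α → ℕ} (hB : Bdd B)
    (h : ∀ a, ∀ l', l' <:+ l a → sz (l'.foldr (g a) (f a)) ≤ B a) :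
    PT (fun a => (l a).foldr (g a) (f a)) := by
  have hg' : PT (fun p : α × (σ × β) => g p.1 p.2.2 p.2.1) := by
    have := PT.comp hg (f := fun p : α × (σ × β) => (p.1, (p.2.2, p.2.1)))
      (PT.pair PT.id.fst (PT.pair PT.id.snd.snd PT.id.snd.fst))
    exact this
  refine (PT.foldl (g := fun a s b => g a b s) hl.reverse hf hg' hB ?_).congr fun a => ?_
  · intro a l' hl'
    have h1 : l'.reverse <:+ l a := by
      rw [← List.reverse_prefix, List.reverse_reverse]; exact hl'
    have h2 := h a _ h1
    rwa [List.foldr_reverse] at h2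
  · rw [List.foldl_reverse]

theorem PT.getLast? {l : α → List β} (hl : PT l) : PT (fun a => (l a).getLast?) :=
  (PT.head? hl.reverse).congr fun a => by rw [List.head?_reverse]

theorem PT.dropLast {l : α → List β} (hl : PT l) : PT (fun a => (l a).dropLast) :=
  (PT.reverse (PT.tail hl.reverse)).congr fun a => by
    rw [List.tail_reverse, List.reverse_reverse]

/-- `zipWith` via indices. -/
theorem PT.zipWith {l : α → List β} {l' : α → List γ} {g : α → β → γ → δ} (hl : PT l)
    (hl' : PT l') (hg : PT (fun p : α × (β × γ) => g p.1 p.2.1 p.2.2)) :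
    PT (fun a => List.zipWith (g a) (l a) (l' a)) := by
  have h1 : PT (fun a => (List.range (l a).length).filterMap fun i =>
      (l a)[i]?.bind fun b => (l' a)[i]?.map fun c => g a b c) := by
    refine PT.filterMap (g := fun a i => (l a)[i]?.bind fun b => (l' a)[i]?.map fun c =>
      g a b c) (PT.range hl.length) ?_
    refine PT.optionBind (α := α × ℕ) (f := fun p => (l p.1)[p.2]?)
      (g := fun p b => (l' p.1)[p.2]?.map fun c => g p.1 b c)
      (PT.getElem? (hl.comp PT.id.fst) PT.id.snd) ?_
    refine PT.optionMap (α := (α × ℕ) × β) (f := fun q => (l' q.1.1)[q.1.2]?)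
      (g := fun q c => g q.1.1 q.2 c)
      (PT.getElem? (hl'.comp PT.id.fst.fst) PT.id.fst.snd) ?_
    have := PT.comp hg (f := fun r : ((α × ℕ) × β) × γ => (r.1.1.1, (r.1.2, r.2)))
      (PT.pair PT.id.fst.fst.fst (PT.pair PT.id.fst.snd PT.id.snd))
    exact this
  refine h1.congr fun a => ?_
  generalize l a = L
  generalize l' a = L'
  induction L generalizing L' with
  | nil => simp
  | cons b L ih =>
    cases L' with
    | nil => simp
    | cons c L' =>
      rw [List.length_cons, List.range_succ_eq_map, List.filterMap_cons]
      simp only [List.getElem?_cons_zero, Option.bind_some, Option.map_some,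
        List.zipWith_cons_cons, List.filterMap_map, Function.comp_def,
        List.getElem?_cons_succ]
      rw [ih L']

theorem PT.zip {l : α → List β} {l' : α → List γ} (hl : PT l) (hl' : PT l') :
    PT (fun a => (l a).zip (l' a)) :=
  (PT.zipWith (g := fun _ b c => (b, c)) hl hl' (PT.pair PT.id.snd.fst PT.id.snd.snd)).congr
    fun a => rfl

theorem PT.set {l : α → List β} {n : α → ℕ} {f : α → β} (hl : PT l) (hn : PT n)
    (hf : PT f) : PT (fun a => (l a).set (n a) (f a)) := by
  have h1 : PT (fun a => if n a < (l a).length then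
      (l a).take (n a) ++ f a :: (l a).drop (n a + 1) else l a) :=
    PT.iteProp (PT.lt hn hl.length)
      (PT.append (PT.take hl hn) (PT.cons hf (PT.drop hl hn.succ))) hl
  refine h1.congr fun a => ?_
  rw [List.set_eq_take_append_cons_drop]

theorem PT.eraseIdx {l : α → List β} {n : α → ℕ} (hl : PT l) (hn : PT n) :
    PT (fun a => (l a).eraseIdx (n a)) :=
  (PT.append (PT.take hl hn) (PT.drop hl hn.succ)).congr fun a => by
    rw [List.eraseIdx_eq_take_drop_succ]

theorem PT.modify {l : α → List β} {n : α → ℕ} {g : α → β → β} (hl : PT l) (hn : PT n)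
    (hg : PT (fun p : α × β => g p.1 p.2)) : PT (fun a => (l a).modify (n a) (g a)) := by
  have h1 : PT (fun a => Option.casesOn (motive := fun _ => List β) (l a)[n a]? (l a)
      fun b => (l a).set (n a) (g a b)) := by
    refine PT.optionCases (g := fun a b => (l a).set (n a) (g a b)) (PT.getElem? hl hn) hl ?_
    exact PT.set (hl.comp PT.id.fst) (hn.comp PT.id.fst) hg
  refine h1.congr fun a => ?_
  apply List.ext_getElem?
  intro i
  rw [List.getElem?_modify]
  cases h : (l a)[n a]? with
  | none =>
    simp only
    rw [List.getElem?_eq_none_iff] at h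
    split_ifs with h2
    · subst h2; rw [List.getElem?_eq_none h]; rfl
    · cases (l a)[i]? <;> rfl
  | some b =>
    simp only
    rw [List.getElem?_set]
    have h3 : n a < (l a).length := by
      by_contra hc
      rw [List.getElem?_eq_none (by omega)] at h; simp at h
    split_ifs with h2
    · subst h2; rw [h]; rfl
    · cases (l a)[i]? <;> rfl

theorem PT.countP {l : α → List β} {g : α → β → Bool} (hl : PT l)
    (hg : PT (fun p : α × β => g p.1 p.2)) : PT (fun a => (l a).countP (g a)) :=
  (PT.length (PT.filter hl hg)).congr fun a => by rw [List.countP_eq_length_filter]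

theorem PT.count [InjRep β] [DecidableEq β] {l : α → List β} {f : α → β} (hl : PT l)
    (hf : PT f) : PT (fun a => (l a).count (f a)) :=
  (PT.countP (g := fun a b => b == f a) hl (PT.beq PT.id.snd (hf.comp PT.id.fst))).congr
    fun a => rfl

/-- `eraseDups`/`dedup` up to order: keep the first occurrence of every element. -/
def nub [DecidableEq β] (l : List β) : List β :=
  (List.range l.length).filterMap fun i =>
    l[i]?.bind fun b => if b ∈ l.take i then none else some b

theorem PT.nub [InjRep β] [DecidableEq β] {l : α → List β} (hl : PT l) :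
    PT (fun a => PolyTime.nub (l a)) := by
  refine PT.filterMap (g := fun a i => (l a)[i]?.bind fun b =>
    if b ∈ (l a).take i then none else Option.some b) (PT.range hl.length) ?_
  refine PT.optionBind (α := α × ℕ) (f := fun p => (l p.1)[p.2]?)
    (g := fun p b => if b ∈ (l p.1).take p.2 then none else Option.some b)
    (PT.getElem? (hl.comp PT.id.fst) PT.id.snd) ?_
  exact PT.iteProp (PT.contains PT.id.snd (PT.take (hl.comp PT.id.fst.fst) PT.id.fst.snd))
    (PT.const none) (PT.some PT.id.snd)

theorem PT.pow {f : α → ℕ} (hf : PT f) (k : ℕ) : PT (fun a => f a ^ k) := by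
  induction k with
  | zero => exact (PT.const 1).congr fun a => by simp
  | succ k ih => exact (PT.mul ih hf).congr fun a => by rw [pow_succ]

/-- All pairs of elements of two lists. -/
theorem PT.product {l : α → List β} {l' : α → List γ} (hl : PT l) (hl' : PT l') :
    PT (fun a => (l a) ×ˢ (l' a)) := by
  refine PT.flatMap (g := fun a b => (l' a).map (Prod.mk b)) hl ?_
  exact PT.map (α := α × β) (g := fun p c => (p.2, c)) (hl'.comp PT.id.fst)
    (PT.pair PT.id.fst.snd PT.id.snd)

end Pool.Agent.PolyTime
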