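import Pool.Agent.Lib.PolyTime.ListOps

/-!
# Binary arithmetic in polynomial time
-/

namespace Pool.Agent.PolyTime

open Function Polynomial

universe u v w

variable {α : Type u} {β : Type v} {γ : Type w} {σ : Type*} {δ : Type*}
variable [Rep α] [Rep β] [Rep γ] [Rep σ] [Rep δ]

/-- Natural numbers, written in binary. -/
@[ext] structure Bin : Type where
  /-- The number. -/
  val : ℕ
  deriving DecidableEq

instance : Rep Bin := ⟨fun n => toT (Nat.bits n.val)⟩

/-- The function `f` with values in the natural numbers is computed in binary. -/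
def BT (f : α → ℕ) : Prop := PT fun a => Bin.mk (f a)

theorem sz_boolList_le (l : List Bool) : sz l ≤ 4 * l.length + 1 := by
  induction l with
  | nil => simp
  | cons b l ih =>
    have := sz_bool b
    simp only [sz_cons, List.length_cons]; omega

theorem sz_bin (n : Bin) : sz n = sz (Nat.bits n.val) := rfl

theorem sz_bin_le (n : Bin) : sz n ≤ 4 * n.val.size + 1 := by
  rw [sz_bin, ← Nat.size_eq_bits_len]; exact sz_boolList_le _

theorem size_le_sz (n : Bin) : n.val.size ≤ sz n := by
  rw [sz_bin, ← Nat.size_eq_bits_len]; exact length_le_sz _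

theorem BT.bddSize {f : α → ℕ} (h : BT f) : Bdd fun a => (f a).size :=
  h.bdd.mono fun a => size_le_sz ⟨f a⟩

theorem BT.congr {f g : α → ℕ} (h : BT f) (hfg : ∀ a, f a = g a) : BT g :=
  PT.congr h fun a => by rw [hfg a]

theorem PT.val {f : α → Bin} (h : PT f) : BT fun a => (f a).val := h

theorem BT.comp {g : β → ℕ} {f : α → β} (hg : BT g) (hf : PT f) : BT (fun a => g (f a)) :=
  PT.comp (g := fun b => Bin.mk (g b)) hg hf

theorem BT.const (n : ℕ) : BT (fun _ : α => n) := PT.const _

theorem BT.bits {f : α → ℕ} (h : BT f) : PT (fun a => Nat.bits (f a)) := h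

theorem BT.size {f : α → ℕ} (h : BT f) : PT (fun a => (f a).size) :=
  h.bits.length.congr fun _ => Nat.size_eq_bits_len _

theorem BT.ite {c : α → Bool} {f g : α → ℕ} (hc : PT c) (hf : BT f) (hg : BT g) :
    BT (fun a => if c a then f a else g a) :=
  (PT.ite hc hf hg).congr fun a => by
    by_cases h : c a = true
    · simp only [h, if_true]
    · simp only [h, if_false, Bool.false_eq_true]

theorem BT.iteProp {c : α → Prop} [DecidablePred c] {f g : α → ℕ}
    (hc : PT (fun a => decide (c a))) (hf : BT f) (hg : BT g) :
    BT (fun a => if c a then f a else g a) :=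
  (PT.iteProp hc hf hg).congr fun a => by
    by_cases h : c a
    · simp only [h, if_true]
    · simp only [h, if_false]

/-- The value of a list of binary digits, least significant digit first. -/
def valL : List Bool → ℕ
  | [] => 0
  | b :: l => b.toNat + 2 * valL l

@[simp] theorem valL_nil : valL [] = 0 := rfl
@[simp] theorem valL_cons (b : Bool) (l : List Bool) : valL (b :: l) = b.toNat + 2 * valL l := rfl

theorem valL_append (l l' : List Bool) : valL (l ++ l') = valL l + 2 ^ l.length * valL l' := by
  induction l with
  | nil => simp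
  | cons b l ih => simp only [List.cons_append, valL_cons, ih, List.length_cons, pow_succ]; ring

theorem valL_replicate (k : ℕ) : valL (List.replicate k false) = 0 := by
  induction k with
  | zero => rfl
  | succ k ih => simp [List.replicate_succ, ih]

theorem valL_lt (l : List Bool) : valL l < 2 ^ l.length := by
  induction l with
  | nil => simp
  | cons b l ih =>
    have : b.toNat ≤ 1 := Bool.toNat_le b
    simp only [valL_cons, List.length_cons, pow_succ]; omega

theorem valL_bits (n : ℕ) : valL (Nat.bits n) = n := by
  induction n using Nat.binaryRec' with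
  | zero => simp
  | bit b n h ih =>
    rw [Nat.bits_append_bit _ _ h, valL_cons, ih, Nat.bit_val]; ring

/-- Remove the leading zeros. -/
def trim (l : List Bool) : List Bool :=
  l.foldr (fun b acc => if b || !acc.isEmpty then b :: acc else []) []

theorem trim_eq (l : List Bool) : trim l = Nat.bits (valL l) := by
  induction l with
  | nil => simp [trim]
  | cons b l ih =>
    have h1 : trim (b :: l) = if b || !(trim l).isEmpty then b :: trim l else [] := rfl
    rw [h1, ih, valL_cons]
    have h2 : b.toNat + 2 * valL l = Nat.bit b (valL l) := by rw [Nat.bit_val]; ring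
    rw [h2]
    by_cases h0 : valL l = 0
    · rw [h0]
      cases b <;> simp
    · have h3 : (Nat.bits (valL l)).isEmpty = false := by
        rw [List.isEmpty_eq_false_iff]
        intro h
        apply h0
        rw [← valL_bits (valL l), h]; rfl
      rw [h3, Nat.bits_append_bit _ _ (fun h => absurd h h0)]
      simp

theorem PT.trim {f : α → List Bool} (hf : PT f) : PT (fun a => trim (f a)) := by
  refine PT.foldr (g := fun _ b acc => if b || !acc.isEmpty then b :: acc else []) hf
    (PT.const []) ?_ (B := fun a => 4 * sz (f a) + 1)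
    (((Bdd.const 4).mul hf.bdd).add (Bdd.const 1)) ?_
  · exact PT.ite (PT.or PT.id.snd.fst (PT.not (PT.isNil PT.id.snd.snd)))
      (PT.cons PT.id.snd.fst PT.id.snd.snd) (PT.const [])
  · intro a l' hl'
    have h1 : ∀ l : List Bool,
        (l.foldr (fun b acc => if b || !acc.isEmpty then b :: acc else []) []).length
          ≤ l.length := by
      intro l
      induction l with
      | nil => simp
      | cons b l ih =>
        rw [List.foldr_cons]
        split
        · simp only [List.length_cons]; omega
        · simp
    have h2 := sz_boolList_le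
      (l'.foldr (fun b acc => if b || !acc.isEmpty then b :: acc else []) [])
    have h3 := h1 l'
    have h4 := hl'.length_le
    have h5 := length_le_sz (f a)
    omega

/-- From a list of digits to a number. -/
theorem PT.valL {f : α → List Bool} (hf : PT f) : BT (fun a => valL (f a)) := by
  have h := hf.trim
  have h1 : PT (fun a => Nat.bits (PolyTime.valL (f a))) := h.congr fun a => trim_eq _
  exact h1

/-! ### Addition -/

/-- One step of the addition: carry and digits so far. -/
def addStep (s : Bool × List Bool) (x : Bool × Bool) : Bool × List Bool :=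
  ((s.1 && x.1) || (s.1 && x.2) || (x.1 && x.2), (xor (xor s.1 x.1) x.2) :: s.2)

theorem addStep_foldl (l : List (Bool × Bool)) : ∀ (c : Bool) (o : List Bool),
    valL (l.foldl addStep (c, o)).2.reverse
        + 2 ^ (o.length + l.length) * (l.foldl addStep (c, o)).1.toNat
      = valL o.reverse + 2 ^ o.length * (c.toNat + valL (l.map Prod.fst)
        + valL (l.map Prod.snd)) := by
  induction l with
  | nil => intro c o; simp [mul_comm]
  | cons x l ih =>
    intro c o
    rw [List.foldl_cons]
    obtain ⟨x, y⟩ := x
    have h := ih (addStep (c, o) (x, y)).1 (addStep (c, o) (x, y)).2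
    have e1 : (addStep (c, o) (x, y)).2.length = o.length + 1 := by simp [addStep]
    have e2 : o.length + (((x, y) :: l).length) = o.length + 1 + l.length := by
      simp only [List.length_cons]; omega
    rw [e2, ← e1]
    rw [show ((addStep (c, o) (x, y)).1, (addStep (c, o) (x, y)).2) = addStep (c, o) (x, y)
      from rfl] at h
    rw [h, e1]
    have e3 : valL (addStep (c, o) (x, y)).2.reverse
        = valL o.reverse + 2 ^ o.length * (xor (xor c x) y).toNat := by
      simp [addStep, valL_append]
    have e4 : (xor (xor c x) y).toNat + 2 * ((c && x) || (c && y) || (x && y)).toNat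
        = c.toNat + x.toNat + y.toNat := by cases c <;> cases x <;> cases y <;> rfl
    rw [e3]
    simp only [addStep, List.map_cons, valL_cons, pow_succ]
    have e5 : valL o.reverse + 2 ^ o.length * (xor (xor c x) y).toNat
        + 2 ^ o.length * 2 * (((c && x) || (c && y) || (x && y)).toNat
          + valL (l.map Prod.fst) + valL (l.map Prod.snd))
        = valL o.reverse + 2 ^ o.length * (((xor (xor c x) y).toNat
          + 2 * ((c && x) || (c && y) || (x && y)).toNat)
          + 2 * valL (l.map Prod.fst) + 2 * valL (l.map Prod.snd)) := by ring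
    rw [e5, e4]; ring

theorem map_fst_zip_pad (x y : List Bool) :
    valL (((x ++ List.replicate y.length false).zip
      (y ++ List.replicate x.length false)).map Prod.fst) = valL x := by
  have h : (x ++ List.replicate y.length false).length
      ≤ (y ++ List.replicate x.length false).length := by
    simp only [List.length_append, List.length_replicate]; omega
  rw [List.map_fst_zip h, valL_append, valL_replicate]; simp

theorem map_snd_zip_pad (x y : List Bool) :
    valL (((x ++ List.replicate y.length false).zip
      (y ++ List.replicate x.length false)).map Prod.snd) = valL y := by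
  have h : (y ++ List.replicate x.length false).length
      ≤ (x ++ List.replicate y.length false).length := by
    simp only [List.length_append, List.length_replicate]; omega
  rw [List.map_snd_zip h, valL_append, valL_replicate]; simp

theorem PT.padZip {f g : α → List Bool} (hf : PT f) (hg : PT g) :
    PT (fun a => ((f a) ++ List.replicate (g a).length false).zip
      ((g a) ++ List.replicate (f a).length false)) :=
  PT.zip (PT.append hf (PT.replicate hg.length (PT.const false)))
    (PT.append hg (PT.replicate hf.length (PT.const false)))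

theorem foldl_digit_length (g : Bool → Bool × Bool → Bool) (h : Bool → Bool × Bool → Bool)
    (l : List (Bool × Bool)) : ∀ s : Bool × List Bool,
    (l.foldl (fun s x => (g s.1 x, h s.1 x :: s.2)) s).2.length = s.2.length + l.length := by
  induction l with
  | nil => intro s; rfl
  | cons x l ih =>
    intro s; rw [List.foldl_cons, ih]; simp only [List.length_cons]; omega

theorem PT.digitFold {l : α → List (Bool × Bool)} (hl : PT l)
    {g h : Bool → Bool × Bool → Bool}
    (hg : PT (fun p : Bool × (Bool × Bool) => g p.1 p.2))
    (hh : PT (fun p : Bool × (Bool × Bool) => h p.1 p.2)) :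
    PT (fun a => (l a).foldl (fun (s : Bool × List Bool) x => (g s.1 x, h s.1 x :: s.2))
      (false, [])) := by
  refine PT.foldl (g := fun _ (s : Bool × List Bool) x => (g s.1 x, h s.1 x :: s.2)) hl
    (PT.const (false, [])) ?_ (B := fun a => 4 * sz (l a) + 5)
    (((Bdd.const 4).mul hl.bdd).add (Bdd.const 5)) ?_
  · have e : PT (fun p : α × ((Bool × List Bool) × (Bool × Bool)) => (p.2.1.1, p.2.2)) :=
      PT.pair PT.id.snd.fst.fst PT.id.snd.snd
    exact PT.pair (PT.comp hg e) (PT.cons (PT.comp hh e) PT.id.snd.fst.snd)
  · intro a l' hl'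
    have h1 := foldl_digit_length g h l' (false, [])
    have h2 := sz_boolList_le
      (l'.foldl (fun (s : Bool × List Bool) x => (g s.1 x, h s.1 x :: s.2)) (false, [])).2
    have h3 := sz_bool
      (l'.foldl (fun (s : Bool × List Bool) x => (g s.1 x, h s.1 x :: s.2)) (false, [])).1
    have h4 := hl'.length_le
    have h5 := length_le_sz (l a)
    rw [sz_prod]
    simp only [List.length_nil, Nat.zero_add] at h1
    omega

theorem PT.xor {f g : α → Bool} (hf : PT f) (hg : PT g) : PT (fun a => xor (f a) (g a)) :=
  (PT.ite hf (PT.not hg) hg).congr fun a => by cases f a <;> simp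

theorem BT.add {f g : α → ℕ} (hf : BT f) (hg : BT g) : BT (fun a => f a + g a) := by
  have h1 := PT.padZip hf.bits hg.bits
  have h2 : PT (fun a => (((Nat.bits (f a)) ++ List.replicate (Nat.bits (g a)).length false).zip
      ((Nat.bits (g a)) ++ List.replicate (Nat.bits (f a)).length false)).foldl addStep
      (false, [])) := by
    refine PT.digitFold (g := fun c x => (c && x.1) || (c && x.2) || (x.1 && x.2))
      (h := fun c x => Bool.xor (Bool.xor c x.1) x.2) h1 ?_ ?_
    · exact PT.or (PT.or (PT.and PT.id.fst PT.id.snd.fst) (PT.and PT.id.fst PT.id.snd.snd))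
        (PT.and PT.id.snd.fst PT.id.snd.snd)
    · exact PT.xor (PT.xor PT.id.fst PT.id.snd.fst) PT.id.snd.snd
  refine (PT.valL (PT.reverse (PT.cons h2.fst h2.snd))).congr fun a => ?_
  have h3 := addStep_foldl (((Nat.bits (f a)) ++
      List.replicate (Nat.bits (g a)).length false).zip
      ((Nat.bits (g a)) ++ List.replicate (Nat.bits (f a)).length false)) false []
  rw [map_fst_zip_pad, map_snd_zip_pad, valL_bits, valL_bits] at h3
  have h4 := foldl_digit_length (fun c x => (c && x.1) || (c && x.2) || (x.1 && x.2))
    (fun c x => Bool.xor (Bool.xor c x.1) x.2) (((Nat.bits (f a)) ++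
      List.replicate (Nat.bits (g a)).length false).zip
      ((Nat.bits (g a)) ++ List.replicate (Nat.bits (f a)).length false)) (false, [])
  change (List.foldl addStep _ _).2.length = _ at h4
  rw [List.reverse_cons, valL_append, List.length_reverse, h4]
  simp only [List.length_nil, List.reverse_nil, valL_nil, pow_zero, one_mul, Bool.toNat_false,
    Nat.zero_add, valL_cons, Nat.mul_zero, Nat.add_zero] at h3 ⊢
  exact h3

/-! ### Subtraction and comparison -/

/-- One step of the subtraction: borrow and digits so far. -/
def subStep (s : Bool × List Bool) (x : Bool × Bool) : Bool × List Bool :=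
  ((!x.1 && x.2) || (!x.1 && s.1) || (x.2 && s.1), (xor (xor s.1 x.1) x.2) :: s.2)

theorem subStep_foldl (l : List (Bool × Bool)) : ∀ (c : Bool) (o : List Bool),
    valL (l.foldl subStep (c, o)).2.reverse
        + 2 ^ o.length * (c.toNat + valL (l.map Prod.snd))
      = valL o.reverse + 2 ^ o.length * valL (l.map Prod.fst)
        + 2 ^ (o.length + l.length) * (l.foldl subStep (c, o)).1.toNat := by
  induction l with
  | nil => intro c o; simp [mul_comm]
  | cons x l ih =>
    intro c o
    rw [List.foldl_cons]
    obtain ⟨x, y⟩ := x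
    have h := ih (subStep (c, o) (x, y)).1 (subStep (c, o) (x, y)).2
    have e1 : (subStep (c, o) (x, y)).2.length = o.length + 1 := by simp [subStep]
    have e2 : o.length + (((x, y) :: l).length) = o.length + 1 + l.length := by
      simp only [List.length_cons]; omega
    rw [e1] at h
    rw [e2]
    rw [show ((subStep (c, o) (x, y)).1, (subStep (c, o) (x, y)).2) = subStep (c, o) (x, y)
      from rfl] at h
    have e3 : valL (subStep (c, o) (x, y)).2.reverse
        = valL o.reverse + 2 ^ o.length * (xor (xor c x) y).toNat := by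
      simp [subStep, valL_append]
    have e4 : (xor (xor c x) y).toNat + c.toNat + y.toNat
        = x.toNat + 2 * ((!x && y) || (!x && c) || (y && c)).toNat := by
      cases c <;> cases x <;> cases y <;> rfl
    rw [e3] at h
    have e0 : (subStep (c, o) (x, y)).1 = ((!x && y) || (!x && c) || (y && c)) := rfl
    rw [e0] at h
    simp only [List.map_cons, valL_cons, pow_succ] at h ⊢
    have e5 : 2 ^ o.length * ((xor (xor c x) y).toNat + c.toNat + y.toNat)
        = 2 ^ o.length * (x.toNat + 2 * ((!x && y) || (!x && c) || (y && c)).toNat) := by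
      rw [e4]
    have e6 : valL (l.foldl subStep (subStep (c, o) (x, y))).2.reverse
        + 2 ^ o.length * (c.toNat + (y.toNat + 2 * valL (l.map Prod.snd)))
        + 2 ^ o.length * 2 * ((!x && y) || (!x && c) || (y && c)).toNat
        = (valL (l.foldl subStep (subStep (c, o) (x, y))).2.reverse
        + 2 ^ o.length * 2 * (((!x && y) || (!x && c) || (y && c)).toNat
          + valL (l.map Prod.snd)))
        + 2 ^ o.length * (c.toNat + y.toNat) := by ring
    have e7 : 2 ^ o.length * ((xor (xor c x) y).toNat + c.toNat + y.toNat)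
        = 2 ^ o.length * (xor (xor c x) y).toNat + 2 ^ o.length * (c.toNat + y.toNat) := by ring
    have e8 : 2 ^ o.length * (x.toNat + 2 * ((!x && y) || (!x && c) || (y && c)).toNat)
        = 2 ^ o.length * x.toNat
          + 2 ^ o.length * 2 * ((!x && y) || (!x && c) || (y && c)).toNat := by ring
    have e9 : 2 ^ o.length * (x.toNat + 2 * valL (l.map Prod.fst))
        = 2 ^ o.length * x.toNat + 2 ^ o.length * 2 * valL (l.map Prod.fst) := by ring
    rw [e9]
    omega

/-- The digits of the difference, and the last borrow. -/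
def subL (x y : List Bool) : Bool × List Bool :=
  ((x ++ List.replicate y.length false).zip (y ++ List.replicate x.length false)).foldl subStep
    (false, [])

theorem PT.subL {f g : α → List Bool} (hf : PT f) (hg : PT g) :
    PT (fun a => subL (f a) (g a)) := by
  refine PT.digitFold (g := fun c x => (!x.1 && x.2) || (!x.1 && c) || (x.2 && c))
      (h := fun c x => Bool.xor (Bool.xor c x.1) x.2) (PT.padZip hf hg) ?_ ?_
  · exact PT.or (PT.or (PT.and (PT.not PT.id.snd.fst) PT.id.snd.snd)
      (PT.and (PT.not PT.id.snd.fst) PT.id.fst)) (PT.and PT.id.snd.snd PT.id.fst)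
  · exact PT.xor (PT.xor PT.id.fst PT.id.snd.fst) PT.id.snd.snd

theorem subL_spec (x y : ℕ) :
    valL (subL (Nat.bits x) (Nat.bits y)).2.reverse + y
      = x + 2 ^ (x.size + y.size) * (subL (Nat.bits x) (Nat.bits y)).1.toNat := by
  have h3 := subStep_foldl (((Nat.bits x) ++
      List.replicate (Nat.bits y).length false).zip
      ((Nat.bits y) ++ List.replicate (Nat.bits x).length false)) false []
  rw [map_fst_zip_pad, map_snd_zip_pad, valL_bits, valL_bits] at h3
  have e : (((Nat.bits x) ++ List.replicate (Nat.bits y).length false).zip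
      ((Nat.bits y) ++ List.replicate (Nat.bits x).length false)).length = x.size + y.size := by
    simp only [List.length_zip, List.length_append, List.length_replicate,
      Nat.size_eq_bits_len]; omega
  rw [e] at h3
  simpa [subL] using h3

theorem subL_lt (x y : ℕ) :
    valL (subL (Nat.bits x) (Nat.bits y)).2.reverse < 2 ^ (x.size + y.size) := by
  have h4 := foldl_digit_length (fun c x => (!x.1 && x.2) || (!x.1 && c) || (x.2 && c))
    (fun c x => Bool.xor (Bool.xor c x.1) x.2) (((Nat.bits x) ++
      List.replicate (Nat.bits y).length false).zip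
      ((Nat.bits y) ++ List.replicate (Nat.bits x).length false)) (false, [])
  change (subL (Nat.bits x) (Nat.bits y)).2.length = _ at h4
  have e : (((Nat.bits x) ++ List.replicate (Nat.bits y).length false).zip
      ((Nat.bits y) ++ List.replicate (Nat.bits x).length false)).length = x.size + y.size := by
    simp only [List.length_zip, List.length_append, List.length_replicate,
      Nat.size_eq_bits_len]; omega
  rw [e] at h4
  have h5 := valL_lt (subL (Nat.bits x) (Nat.bits y)).2.reverse
  rw [List.length_reverse, h4] at h5
  simpa using h5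

theorem subL_fst (x y : ℕ) :
    (subL (Nat.bits x) (Nat.bits y)).1 = decide (x < y) := by
  have h1 := subL_spec x y
  have h2 := subL_lt x y
  cases h : (subL (Nat.bits x) (Nat.bits y)).1 with
  | false =>
    rw [h] at h1
    simp only [Bool.toNat_false, Nat.mul_zero, Nat.add_zero] at h1
    have : ¬ x < y := by omega
    simp [this]
  | true =>
    rw [h] at h1
    simp only [Bool.toNat_true, Nat.mul_one] at h1
    have : x < y := by omega
    simp [this]

theorem BT.lt {f g : α → ℕ} (hf : BT f) (hg : BT g) : PT (fun a => decide (f a < g a)) :=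
  (PT.subL hf.bits hg.bits).fst.congr fun _ => subL_fst _ _

theorem BT.le {f g : α → ℕ} (hf : BT f) (hg : BT g) : PT (fun a => decide (f a ≤ g a)) :=
  (PT.not (BT.lt hg hf)).congr fun a => by
    by_cases h : f a ≤ g a
    · have : ¬ g a < f a := by omega
      simp [h]
    · have : g a < f a := by omega
      simp [this]

theorem BT.eq {f g : α → ℕ} (hf : BT f) (hg : BT g) : PT (fun a => decide (f a = g a)) :=
  (PT.and (BT.le hf hg) (BT.le hg hf)).congr fun a => by
    by_cases h : f a = g a
    · simp [h]
    · have : ¬ (f a ≤ g a ∧ g a ≤ f a) := by omega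
      simp only [h, decide_false]
      by_cases h1 : f a ≤ g a
      · have : ¬ g a ≤ f a := by omega
        simp [this]
      · simp [h1]

theorem BT.sub {f g : α → ℕ} (hf : BT f) (hg : BT g) : BT (fun a => f a - g a) := by
  have h1 := PT.subL hf.bits hg.bits
  refine (BT.ite (BT.lt hf hg) (BT.const 0) (PT.valL h1.snd.reverse)).congr fun a => ?_
  have h2 := subL_spec (f a) (g a)
  rw [subL_fst] at h2
  by_cases h : f a < g a
  · simp only [h, decide_true, if_true]; omega
  · simp only [h, decide_false, Bool.toNat_false, Nat.mul_zero, Nat.add_zero] at h2 ⊢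
    simp only [Bool.false_eq_true, if_false]
    omega

/-! ### Multiplication, division, powers -/

theorem BT.double {f : α → ℕ} (hf : BT f) : BT (fun a => 2 * f a) :=
  (BT.add hf hf).congr fun a => by ring

theorem size_mul_le (x y : ℕ) : (x * y).size ≤ x.size + y.size := by
  rw [Nat.size_le, pow_add]
  exact Nat.mul_lt_mul'' (Nat.lt_size_self x) (Nat.lt_size_self y)

theorem size_add_le (x y : ℕ) : (x + y).size ≤ x.size + y.size + 1 := by
  rw [Nat.size_le]
  have h1 := Nat.lt_size_self x
  have h2 := Nat.lt_size_self y
  have h3 : 2 ^ x.size ≤ 2 ^ (x.size + y.size) := Nat.pow_le_pow_right (by norm_num) (by omega)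
  have h4 : 2 ^ y.size ≤ 2 ^ (x.size + y.size) := Nat.pow_le_pow_right (by norm_num) (by omega)
  rw [pow_succ]; omega

theorem size_pow_le (x k : ℕ) : (x ^ k).size ≤ k * x.size + 1 := by
  induction k with
  | zero => simp
  | succ k ih =>
    rw [pow_succ]
    have := size_mul_le (x ^ k) x
    have e : (k + 1) * x.size = k * x.size + x.size := by ring
    omega

theorem BT.mul {f g : α → ℕ} (hf : BT f) (hg : BT g) : BT (fun a => f a * g a) := by
  have key : ∀ (l : List Bool) (y : ℕ),
      (l.foldr (fun b (acc : Bin) => (⟨2 * acc.val + if b then y else 0⟩ : Bin)) ⟨0⟩).val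
        = valL l * y := by
    intro l y
    induction l with
    | nil => simp
    | cons b l ih =>
      rw [List.foldr_cons, ih, valL_cons]
      cases b <;> simp <;> ring
  refine PT.val ((PT.foldr (g := fun a b (acc : Bin) =>
    (⟨2 * acc.val + if b then g a else 0⟩ : Bin)) hf.bits
    (PT.const ⟨0⟩) ?_ (B := fun a => 4 * (2 * (f a).size + (g a).size) + 1)
    (((Bdd.const 4).mul (((Bdd.const 2).mul hf.bddSize).add hg.bddSize)).add (Bdd.const 1))
    ?_).congr fun a => ?_)
  · exact BT.add (BT.double (PT.val PT.id.snd.snd))
      (BT.ite PT.id.snd.fst (BT.comp hg PT.id.fst) (BT.const 0))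
  · intro a l' hl'
    refine (sz_bin_le _).trans ?_
    rw [key]
    have h1 := size_mul_le (valL l') (g a)
    have h2 : valL l' < 2 ^ (f a).size := by
      refine (valL_lt l').trans_le (Nat.pow_le_pow_right (by norm_num) ?_)
      rw [← Nat.size_eq_bits_len]; exact hl'.length_le
    have h3 := Nat.size_le.2 h2
    omega
  · have := key (Nat.bits (f a)) (g a)
    rw [valL_bits] at this
    rw [← this]

theorem BT.pow {f : α → ℕ} {n : α → ℕ} (hf : BT f) (hn : PT n) : BT (fun a => f a ^ n a) := by
  have key : ∀ (x m : ℕ), (Nat.rec (motive := fun _ => Bin) ⟨1⟩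
      (fun _ s => (⟨s.val * x⟩ : Bin)) m).val = x ^ m := by
    intro x m
    induction m with
    | zero => rfl
    | succ m ih => simp only [ih, pow_succ]
  refine PT.val ((PT.natRec (g := fun a _ (s : Bin) => (⟨s.val * f a⟩ : Bin)) hn (PT.const ⟨1⟩)
    ?_ (B := fun a => 4 * (sz (n a) * (f a).size + 1) + 1)
    (((Bdd.const 4).mul ((hn.bdd.mul hf.bddSize).add (Bdd.const 1))).add (Bdd.const 1))
    ?_).congr fun a => ?_)
  · exact BT.mul (PT.val PT.id.snd.snd) (BT.comp hf PT.id.fst)
  · intro a m hm
    refine (sz_bin_le _).trans ?_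
    rw [key]
    have h1 := size_pow_le (f a) m
    have h2 : m * (f a).size ≤ sz (n a) * (f a).size := by
      refine Nat.mul_le_mul_right _ ?_
      rw [sz_nat]; omega
    omega
  · rw [← key (f a) (n a)]

/-- Division with remainder on the digits. -/
def divStep (y : ℕ) (b : Bool) (s : Bin × Bin) : Bin × Bin :=
  if y ≤ 2 * s.2.val + b.toNat then (⟨2 * s.1.val + 1⟩, ⟨2 * s.2.val + b.toNat - y⟩)
  else (⟨2 * s.1.val⟩, ⟨2 * s.2.val + b.toNat⟩)

theorem divStep_foldr (y : ℕ) (hy : 0 < y) (l : List Bool) :
    (l.foldr (divStep y) (⟨0⟩, ⟨0⟩)).1.val = valL l / y ∧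
    (l.foldr (divStep y) (⟨0⟩, ⟨0⟩)).2.val = valL l % y := by
  induction l with
  | nil => simp
  | cons b l ih =>
    rw [List.foldr_cons, valL_cons, divStep, ih.1, ih.2]
    have h1 := Nat.mod_add_div (valL l) y
    have h2 := Nat.mod_lt (valL l) hy
    have h3 : b.toNat ≤ 1 := Bool.toNat_le b
    have e : b.toNat + 2 * valL l
        = (2 * (valL l % y) + b.toNat) + y * (2 * (valL l / y)) := by
      nlinarith
    split
    · rename_i h
      have e2 : b.toNat + 2 * valL l
        = (2 * (valL l % y) + b.toNat - y) + y * (2 * (valL l / y) + 1) := by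
        rw [e, Nat.mul_add y (2 * (valL l / y)) 1]; omega
      rw [e2]
      have h4 : 2 * (valL l % y) + b.toNat - y < y := by omega
      constructor
      · rw [Nat.add_mul_div_left _ _ hy, Nat.div_eq_of_lt h4, Nat.zero_add]
      · rw [Nat.add_mul_mod_self_left, Nat.mod_eq_of_lt h4]
    · rename_i h
      have h4 : 2 * (valL l % y) + b.toNat < y := by omega
      rw [e]
      constructor
      · rw [Nat.add_mul_div_left _ _ hy, Nat.div_eq_of_lt h4, Nat.zero_add]
      · rw [Nat.add_mul_mod_self_left, Nat.mod_eq_of_lt h4]

theorem PT.boolToNat {f : α → Bool} (hf : PT f) : BT (fun a => (f a).toNat) :=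
  (BT.ite hf (BT.const 1) (BT.const 0)).congr fun a => by cases f a <;> rfl

theorem BT.divModPos {f g : α → ℕ} (hf : BT f) (hg : BT g) :
    PT (fun a => (Bin.mk (f a / (g a + 1)), Bin.mk (f a % (g a + 1)))) := by
  refine (PT.foldr (g := fun a b s => divStep (g a + 1) b s) hf.bits
    (PT.const (⟨0⟩, ⟨0⟩)) ?_ (B := fun a => 4 * (2 * (f a).size) + 3)
    (((Bdd.const 4).mul ((Bdd.const 2).mul hf.bddSize)).add (Bdd.const 3))
    ?_).congr fun a => ?_
  · have hr : BT (fun p : α × (Bool × (Bin × Bin)) => 2 * p.2.2.2.val + p.2.1.toNat) :=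
      BT.add (BT.double (PT.val PT.id.snd.snd.snd)) (PT.boolToNat PT.id.snd.fst)
    have hy : BT (fun p : α × (Bool × (Bin × Bin)) => g p.1 + 1) :=
      BT.add (BT.comp hg PT.id.fst) (BT.const 1)
    have hq : BT (fun p : α × (Bool × (Bin × Bin)) => 2 * p.2.2.1.val) :=
      BT.double (PT.val PT.id.snd.snd.fst)
    refine (PT.iteProp (c := fun p : α × (Bool × (Bin × Bin)) =>
      g p.1 + 1 ≤ 2 * p.2.2.2.val + p.2.1.toNat) (BT.le hy hr)
      (PT.pair (BT.add hq (BT.const 1)) (BT.sub hr hy)) (PT.pair hq hr)).congr fun p => ?_
    rfl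
  · intro a l' hl'
    have h0 := divStep_foldr (g a + 1) (Nat.succ_pos _) l'
    have h2 : valL l' < 2 ^ (f a).size := by
      refine (valL_lt l').trans_le (Nat.pow_le_pow_right (by norm_num) ?_)
      rw [← Nat.size_eq_bits_len]; exact hl'.length_le
    rw [sz_prod]
    have h3 := sz_bin_le (l'.foldr (divStep (g a + 1)) (⟨0⟩, ⟨0⟩)).1
    have h4 := sz_bin_le (l'.foldr (divStep (g a + 1)) (⟨0⟩, ⟨0⟩)).2
    rw [h0.1] at h3
    rw [h0.2] at h4
    have h5 : (valL l' / (g a + 1)).size ≤ (f a).size :=
      Nat.size_le.2 ((Nat.div_le_self _ _).trans_lt h2)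
    have h6 : (valL l' % (g a + 1)).size ≤ (f a).size :=
      Nat.size_le.2 ((Nat.mod_le _ _).trans_lt h2)
    change sz (l'.foldr (divStep (g a + 1)) (⟨0⟩, ⟨0⟩)).1
      + sz (l'.foldr (divStep (g a + 1)) (⟨0⟩, ⟨0⟩)).2 + 1 ≤ _
    omega
  · have h0 := divStep_foldr (g a + 1) (Nat.succ_pos _) (Nat.bits (f a))
    rw [valL_bits] at h0
    exact Prod.ext (Bin.ext h0.1) (Bin.ext h0.2)

theorem BT.div {f g : α → ℕ} (hf : BT f) (hg : BT g) : BT (fun a => f a / g a) := by
  have h := BT.divModPos hf (BT.sub hg (BT.const 1))
  refine (BT.iteProp (c := fun a => g a = 0) (BT.eq hg (BT.const 0)) (BT.const 0)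
    (PT.val h.fst)).congr fun a => ?_
  split
  · rename_i h; simp [h]
  · rename_i h
    have : g a - 1 + 1 = g a := by omega
    simp only [this]

theorem BT.mod {f g : α → ℕ} (hf : BT f) (hg : BT g) : BT (fun a => f a % g a) := by
  have h := BT.divModPos hf (BT.sub hg (BT.const 1))
  refine (BT.iteProp (c := fun a => g a = 0) (BT.eq hg (BT.const 0)) hf
    (PT.val h.snd)).congr fun a => ?_
  split
  · rename_i h; simp [h]
  · rename_i h
    have : g a - 1 + 1 = g a := by omega
    simp only [this]

/-- From unary to binary. -/
theorem PT.toBin {f : α → ℕ} (hf : PT f) : BT f := by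
  have key : ∀ (m : ℕ), (Nat.rec (motive := fun _ => Bin) ⟨0⟩
      (fun _ s => (⟨s.val + 1⟩ : Bin)) m).val = m := by
    intro m
    induction m with
    | zero => rfl
    | succ m ih => simp only [ih]
  refine (PT.natRec (g := fun _ _ (s : Bin) => (⟨s.val + 1⟩ : Bin)) hf (PT.const ⟨0⟩)
    ?_ (B := fun a => 4 * sz (f a) + 1)
    (((Bdd.const 4).mul hf.bdd).add (Bdd.const 1)) ?_).congr fun a => Bin.ext (key (f a))
  · exact BT.add (PT.val PT.id.snd.snd) (BT.const 1)
  · intro a m hm
    refine (sz_bin_le _).trans ?_
    rw [key]
    have h1 : m.size ≤ m := Nat.size_le.2 Nat.lt_two_pow_self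
    rw [sz_nat]; omega

instance : InjRep Bin := ⟨fun a b h => by
  have h1 : toT (Nat.bits a.val) = toT (Nat.bits b.val) := h
  have h2 : Nat.bits a.val = Nat.bits b.val := InjRep.inj h1
  exact Bin.ext (by rw [← valL_bits a.val, h2, valL_bits])⟩

end Pool.Agent.PolyTime
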