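import Pool.Agent.Lib.PolyTime.Basic

/-!
# Polynomial-time computable functions on numbers and lists
-/

namespace Pool.Agent.PolyTime

open Function Polynomial

universe u v w

variable {α : Type u} {β : Type v} {γ : Type w} {σ : Type*} {δ : Type*}
variable [Rep α] [Rep β] [Rep γ] [Rep σ] [Rep δ]

/-! ### Unary arithmetic -/

theorem PT.add {f g : α → ℕ} (hf : PT f) (hg : PT g) : PT (fun a => f a + g a) := by
  have key : ∀ (a : α) (m : ℕ), Nat.rec (motive := fun _ => ℕ) (f a) (fun _ s => s + 1) m
      = f a + m := by
    intro a m
    induction m with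
    | zero => rfl
    | succ m ih => simp only [ih]; omega
  refine (PT.natRec (g := fun _ _ s => s + 1) hg hf (PT.succ PT.id.snd.snd)
    (B := fun a => sz (f a) + sz (g a)) (hf.bdd.add hg.bdd) ?_).congr fun a => key a (g a)
  intro a m hm
  rw [key]; simp only [sz_nat]; omega

theorem PT.sub {f g : α → ℕ} (hf : PT f) (hg : PT g) : PT (fun a => f a - g a) := by
  have key : ∀ (a : α) (m : ℕ), Nat.rec (motive := fun _ => ℕ) (f a) (fun _ s => s - 1) m
      = f a - m := by
    intro a m
    induction m with
    | zero => rfl
    | succ m ih => simp only [ih]; omega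
  refine (PT.natRec (g := fun _ _ s => s - 1) hg hf (PT.pred PT.id.snd.snd)
    (B := fun a => sz (f a)) hf.bdd ?_).congr fun a => key a (g a)
  intro a m hm
  rw [key]; simp only [sz_nat]; omega

theorem PT.mul {f g : α → ℕ} (hf : PT f) (hg : PT g) : PT (fun a => f a * g a) := by
  have key : ∀ (a : α) (m : ℕ), Nat.rec (motive := fun _ => ℕ) 0 (fun _ s => s + f a) m
      = f a * m := by
    intro a m
    induction m with
    | zero => rfl
    | succ m ih => simp only [ih]; ring
  refine (PT.natRec (g := fun a _ s => s + f a) hg (PT.const 0)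
    (PT.add PT.id.snd.snd (PT.comp hf PT.id.fst))
    (B := fun a => sz (f a) * sz (g a)) (hf.bdd.mul hg.bdd) ?_).congr fun a => key a (g a)
  intro a m hm
  rw [key]; simp only [sz_nat]
  nlinarith [Nat.mul_le_mul_left (f a) hm]

theorem PT.isZero {f : α → ℕ} (hf : PT f) : PT (fun a => decide (f a = 0)) :=
  (PT.natCases (g := fun _ _ => false) hf (PT.const true) (PT.const false)).congr
    fun a => by cases h : f a <;> simp

theorem PT.le {f g : α → ℕ} (hf : PT f) (hg : PT g) : PT (fun a => decide (f a ≤ g a)) :=
  (PT.isZero (hf.sub hg)).congr fun a => by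
    rw [decide_eq_decide]; omega

theorem PT.lt {f g : α → ℕ} (hf : PT f) (hg : PT g) : PT (fun a => decide (f a < g a)) :=
  (PT.le hf.succ hg).congr fun a => rfl

theorem PT.natEq {f g : α → ℕ} (hf : PT f) (hg : PT g) : PT (fun a => decide (f a = g a)) :=
  (PT.isZero ((hf.sub hg).add (hg.sub hf))).congr fun a => by
    rw [decide_eq_decide]; omega

theorem PT.max {f g : α → ℕ} (hf : PT f) (hg : PT g) : PT (fun a => max (f a) (g a)) :=
  (hf.add (hg.sub hf)).congr fun a => by omega

theorem PT.min {f g : α → ℕ} (hf : PT f) (hg : PT g) : PT (fun a => min (f a) (g a)) :=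
  (hf.sub (hf.sub hg)).congr fun a => by omega

/-- Propositional connectives. -/
theorem PT.decAnd {p q : α → Prop} [DecidablePred p] [DecidablePred q]
    (hp : PT (fun a => decide (p a))) (hq : PT (fun a => decide (q a))) :
    PT (fun a => decide (p a ∧ q a)) :=
  (hp.and hq).congr fun a => by simp

theorem PT.decOr {p q : α → Prop} [DecidablePred p] [DecidablePred q]
    (hp : PT (fun a => decide (p a))) (hq : PT (fun a => decide (q a))) :
    PT (fun a => decide (p a ∨ q a)) :=
  (hp.or hq).congr fun a => by simp

theorem PT.decNot {p : α → Prop} [DecidablePred p]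
    (hp : PT (fun a => decide (p a))) : PT (fun a => decide (¬ p a)) :=
  hp.not.congr fun a => by simp

/-- Division with remainder, by repeated subtraction. -/
theorem PT.divMod {f g : α → ℕ} (hf : PT f) (hg : PT g) :
    PT (fun a => (f a / g a, f a % g a)) := by
  -- state: quotient and remainder of the numbers up to the argument
  let step : α → ℕ × ℕ → ℕ × ℕ := fun a s =>
    if s.2 + 1 = g a then (s.1 + 1, 0) else (s.1, s.2 + 1)
  have hstep : PT (fun p : α × (ℕ × (ℕ × ℕ)) => step p.1 p.2.2) :=
    PT.iteProp (PT.natEq PT.id.snd.snd.snd.succ (hg.comp PT.id.fst))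
      (PT.pair PT.id.snd.snd.fst.succ (PT.const 0))
      (PT.pair PT.id.snd.snd.fst PT.id.snd.snd.snd.succ)
  have key : ∀ (a : α) (m : ℕ), Nat.rec (motive := fun _ => ℕ × ℕ) (0, 0)
      (fun _ s => step a s) m = (m / g a, m % g a) := by
    intro a m
    induction m with
    | zero => simp
    | succ m ih =>
      simp only [ih, step]
      rcases Nat.eq_zero_or_pos (g a) with h0 | h0
      · simp [h0]
      · have h1 : (m + 1) / g a = if m % g a + 1 = g a then m / g a + 1 else m / g a := by
          rw [Nat.succ_div]
          have : g a ∣ m + 1 ↔ m % g a + 1 = g a := by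
            rw [Nat.dvd_iff_mod_eq_zero, Nat.add_mod]
            have h2 := Nat.mod_lt m h0
            rcases Nat.lt_or_ge (m % g a + 1) (g a) with h3 | h3
            · have h4 : 1 % g a = 1 := Nat.mod_eq_of_lt (by omega)
              rw [h4, Nat.mod_eq_of_lt h3]; omega
            · have h3' : m % g a + 1 = g a := by omega
              rcases Nat.lt_or_ge 1 (g a) with h5 | h5
              · rw [Nat.mod_eq_of_lt h5, h3']; simp
              · have h6 : g a = 1 := by omega
                simp [h6, Nat.mod_one]
          by_cases h : m % g a + 1 = g a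
          · rw [if_pos (this.2 h), if_pos h]
          · rw [if_neg (fun h' => h (this.1 h')), if_neg h, Nat.add_zero]
        have h2 : (m + 1) % g a = if m % g a + 1 = g a then 0 else m % g a + 1 := by
          have h3 := Nat.mod_add_div (m + 1) (g a)
          have h4 := Nat.mod_add_div m (g a)
          rw [h1] at h3
          split_ifs at h3 ⊢ with h5
          · rw [Nat.mul_add] at h3; omega
          · omega
        rw [h1, h2]
        split_ifs <;> rfl
  have hB : ∀ (m n : ℕ), m / n ≤ m := fun m n => Nat.div_le_self m n
  have hB' : ∀ (m n : ℕ), m % n ≤ m := fun m n => Nat.mod_le m n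
  refine (PT.natRec (g := fun a _ s => step a s) hf (PT.const (0, 0)) hstep
    (B := fun a => 2 * sz (f a) + 1) (((Bdd.const 2).mul hf.bdd).add (Bdd.const 1)) ?_).congr
    fun a => key a (f a)
  intro a m hm
  rw [key]
  have h1 := hB m (g a)
  have h2 := hB' m (g a)
  simp only [sz_pair, sz_nat]
  omega

theorem PT.div {f g : α → ℕ} (hf : PT f) (hg : PT g) : PT (fun a => f a / g a) :=
  (PT.divMod hf hg).fst

theorem PT.mod {f g : α → ℕ} (hf : PT f) (hg : PT g) : PT (fun a => f a % g a) :=
  (PT.divMod hf hg).snd

/-! ### Lists -/

omit [Rep β] [Rep γ] in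
theorem foldl_cons_eq (g : β → γ) (l : List β) (s : List γ) :
    l.foldl (fun acc b => g b :: acc) s = (l.map g).reverse ++ s := by
  induction l generalizing s with
  | nil => rfl
  | cons b l ih => simp [ih]

theorem PT.reverseAppend {f g : α → List β} (hf : PT f) (hg : PT g) :
    PT (fun a => (f a).reverse ++ g a) := by
  refine (PT.foldl (g := fun _ acc b => b :: acc) hf hg
    (PT.cons PT.id.snd.snd PT.id.snd.fst)
    (B := fun a => sz (f a) + sz (g a)) (hf.bdd.add hg.bdd) ?_).congr fun a => ?_
  · intro a l' hl'
    have h := foldl_cons_eq (fun b : β => b) l' (g a)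
    rw [h, List.map_id']
    have h1 := sz_append l'.reverse (g a)
    have h2 := sz_reverse l'
    have h3 := sz_sublist hl'.sublist
    omega
  · have h := foldl_cons_eq (fun b : β => b) (f a) (g a)
    rw [h, List.map_id']

theorem PT.reverse {f : α → List β} (hf : PT f) : PT (fun a => (f a).reverse) :=
  (PT.reverseAppend hf (PT.const [])).congr fun a => by simp

theorem PT.append {f g : α → List β} (hf : PT f) (hg : PT g) :
    PT (fun a => f a ++ g a) :=
  (PT.reverseAppend hf.reverse hg).congr fun a => by simp

/-- Mapping a function in context over a list. -/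
theorem PT.map {l : α → List β} {g : α → β → γ} (hl : PT l)
    (hg : PT (fun p : α × β => g p.1 p.2)) : PT (fun a => (l a).map (g a)) := by
  obtain ⟨q, hq⟩ := hg.bdd
  have hB : Bdd (fun a => sz (l a) * (q.eval (sz a + sz (l a) + 1) + 1) + 1) := by
    refine ((hl.bdd.mul (Bdd.add ?_ (Bdd.const 1))).add (Bdd.const 1))
    obtain ⟨r, hr⟩ := hl.bdd
    exact ⟨q.comp (X + r + 1), fun a => by
      simp only [eval_comp, eval_add, eval_X, eval_one]
      have h : sz (l a) ≤ r.eval (sz a) := hr a
      exact poly_mono q (by omega)⟩
  have h1 : PT (fun a => (l a).foldl (fun acc b => g a b :: acc) []) := by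
    refine PT.foldl (g := fun a acc b => g a b :: acc) hl (PT.const [])
      (PT.cons (hg.comp (PT.pair PT.id.fst PT.id.snd.snd)) PT.id.snd.fst) hB ?_
    intro a l' hl'
    rw [foldl_cons_eq, List.append_nil, sz_reverse]
    refine (sz_le_of_forall _ (q.eval (sz a + sz (l a) + 1)) ?_).trans ?_
    · intro c hc
      obtain ⟨b, hb, rfl⟩ := List.mem_map.1 hc
      refine (hq (a, b)).trans (poly_mono q ?_)
      have := sz_mem_le (hl'.subset hb)
      simp only [sz_pair]; omega
    · rw [List.length_map]
      have h2 := length_le_sz (l a)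
      have h3 := hl'.length_le
      have := Nat.mul_le_mul_right (q.eval (sz a + sz (l a) + 1) + 1) (h3.trans h2)
      omega
  refine h1.reverse.congr fun a => ?_
  rw [foldl_cons_eq, List.append_nil, List.reverse_reverse]

omit [Rep β] [Rep γ] in
theorem foldl_append_eq (g : β → List γ) (l : List β) (s : List γ) :
    l.foldl (fun acc b => acc ++ g b) s = s ++ l.flatMap g := by
  induction l generalizing s with
  | nil => simp
  | cons b l ih => simp [ih]

omit [Rep β] in
theorem sz_flatMap_le (g : β → List γ) (l : List β) (B : ℕ) (h : ∀ b ∈ l, sz (g b) ≤ B) :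
    sz (l.flatMap g) ≤ l.length * B + 1 := by
  induction l with
  | nil => simp
  | cons b l ih =>
    have h1 := ih fun b hb => h b (by simp [hb])
    have h2 := h b (by simp)
    have h3 := sz_append (g b) (l.flatMap g)
    simp only [List.flatMap_cons, List.length_cons]
    have : (l.length + 1) * B = l.length * B + B := by ring
    omega

/-- Concatenating lists computed from the elements of a list. -/
theorem PT.flatMap {l : α → List β} {g : α → β → List γ} (hl : PT l)
    (hg : PT (fun p : α × β => g p.1 p.2)) : PT (fun a => (l a).flatMap (g a)) := by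
  obtain ⟨q, hq⟩ := hg.bdd
  have hB : Bdd (fun a => sz (l a) * (q.eval (sz a + sz (l a) + 1)) + 1) := by
    refine ((hl.bdd.mul ?_).add (Bdd.const 1))
    obtain ⟨r, hr⟩ := hl.bdd
    exact ⟨q.comp (X + r + 1), fun a => by
      simp only [eval_comp, eval_add, eval_X, eval_one]
      have h : sz (l a) ≤ r.eval (sz a) := hr a
      exact poly_mono q (by omega)⟩
  have h1 : PT (fun a => (l a).foldl (fun acc b => acc ++ g a b) []) := by
    refine PT.foldl (g := fun a acc b => acc ++ g a b) hl (PT.const [])
      (PT.append PT.id.snd.fst (hg.comp (PT.pair PT.id.fst PT.id.snd.snd))) hB ?_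
    intro a l' hl'
    rw [foldl_append_eq, List.nil_append]
    refine (sz_flatMap_le (g a) l' (q.eval (sz a + sz (l a) + 1)) ?_).trans ?_
    · intro b hb
      refine (hq (a, b)).trans (poly_mono q ?_)
      have := sz_mem_le (hl'.subset hb)
      simp only [sz_pair]; omega
    · have h2 := length_le_sz (l a)
      have h3 := hl'.length_le
      have := Nat.mul_le_mul_right (q.eval (sz a + sz (l a) + 1)) (h3.trans h2)
      omega
  refine h1.congr fun a => ?_
  rw [foldl_append_eq, List.nil_append]

theorem PT.flatten {l : α → List (List β)} (hl : PT l) : PT (fun a => (l a).flatten) :=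
  (PT.flatMap (g := fun _ x => x) hl PT.id.snd).congr fun a => by
    simp [List.flatMap_def]

theorem PT.filter {l : α → List β} {g : α → β → Bool} (hl : PT l)
    (hg : PT (fun p : α × β => g p.1 p.2)) : PT (fun a => (l a).filter (g a)) :=
  (PT.flatMap (g := fun a b => if g a b then [b] else []) hl
    (PT.ite hg (PT.cons PT.id.snd (PT.const [])) (PT.const []))).congr fun a => by
    induction l a with
    | nil => rfl
    | cons b l ih =>
      simp only [List.flatMap_cons, ih, List.filter_cons]
      cases g a b <;> simp

theorem PT.length {l : α → List β} (hl : PT l) : PT (fun a => (l a).length) := by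
  have key : ∀ (l : List β) (s : ℕ), l.foldl (fun acc _ => acc + 1) s = s + l.length := by
    intro l
    induction l with
    | nil => intro s; rfl
    | cons b l ih => intro s; simp only [List.foldl_cons, ih, List.length_cons]; omega
  refine (PT.foldl (g := fun _ acc _ => acc + 1) hl (PT.const 0)
    (PT.succ PT.id.snd.fst) (B := fun a => 2 * sz (l a) + 1)
    (((Bdd.const 2).mul hl.bdd).add (Bdd.const 1)) ?_).congr fun a => ?_
  · intro a l' hl'
    rw [key, sz_nat]
    have h1 := hl'.length_le
    have h2 := length_le_sz (l a)
    omega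
  · rw [key]; omega

theorem PT.any {l : α → List β} {g : α → β → Bool} (hl : PT l)
    (hg : PT (fun p : α × β => g p.1 p.2)) : PT (fun a => (l a).any (g a)) :=
  (PT.isNil (PT.filter hl hg)).not.congr fun a => by
    induction l a with
    | nil => rfl
    | cons b l ih =>
      rw [List.filter_cons, List.any_cons, ← ih]
      cases g a b <;> simp

theorem PT.all {l : α → List β} {g : α → β → Bool} (hl : PT l)
    (hg : PT (fun p : α × β => g p.1 p.2)) : PT (fun a => (l a).all (g a)) :=
  (PT.any (g := fun a b => !g a b) hl hg.not).not.congr fun a => by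
    induction l a with
    | nil => rfl
    | cons b l ih =>
      rw [List.any_cons, List.all_cons, ← ih]
      cases g a b <;> simp

theorem PT.range {n : α → ℕ} (hn : PT n) : PT (fun a => List.range (n a)) := by
  have key : ∀ m : ℕ, Nat.rec (motive := fun _ => List ℕ) [] (fun i s => s ++ [i]) m
      = List.range m := by
    intro m
    induction m with
    | zero => rfl
    | succ m ih => simp only [ih, List.range_succ]
  refine (PT.natRec (g := fun _ i s => s ++ [i]) hn (PT.const [])
    (PT.append PT.id.snd.snd (PT.cons PT.id.snd.fst (PT.const [])))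
    (B := fun a => sz (n a) * (sz (n a) + 1) + 1)
    ((hn.bdd.mul (hn.bdd.add (Bdd.const 1))).add (Bdd.const 1)) ?_).congr fun a => key (n a)
  intro a m hm
  rw [key]
  refine (sz_le_of_forall _ (sz (n a)) ?_).trans ?_
  · intro i hi
    rw [List.mem_range] at hi
    simp only [sz_nat]; omega
  · have : (List.range m).length ≤ sz (n a) := by simp only [List.length_range, sz_nat]; omega
    have := Nat.mul_le_mul_right (sz (n a) + 1) this
    omega

theorem PT.drop {l : α → List β} {n : α → ℕ} (hl : PT l) (hn : PT n) :
    PT (fun a => (l a).drop (n a)) := by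
  have key : ∀ (a : α) (m : ℕ), Nat.rec (motive := fun _ => List β) (l a)
      (fun _ s => s.tail) m = (l a).drop m := by
    intro a m
    induction m with
    | zero => rfl
    | succ m ih => simp only [ih, List.tail_drop]
  refine (PT.natRec (g := fun _ _ s => s.tail) hn hl (PT.tail PT.id.snd.snd)
    (B := fun a => sz (l a)) hl.bdd ?_).congr fun a => key a (n a)
  intro a m _
  rw [key]
  exact sz_sublist (List.drop_sublist _ _)

theorem PT.getElem? {l : α → List β} {n : α → ℕ} (hl : PT l) (hn : PT n) :
    PT (fun a => (l a)[n a]?) :=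
  (PT.head? (PT.drop hl hn)).congr fun a => by simp

theorem PT.listGetD {l : α → List β} {n : α → ℕ} {d : α → β} (hl : PT l) (hn : PT n)
    (hd : PT d) : PT (fun a => (l a).getD (n a) (d a)) :=
  (PT.getD (PT.getElem? hl hn) hd).congr fun a => by simp

theorem PT.take {l : α → List β} {n : α → ℕ} (hl : PT l) (hn : PT n) :
    PT (fun a => (l a).take (n a)) :=
  (PT.reverse (PT.drop hl.reverse (PT.sub hl.length hn))).congr fun a => by
    rw [List.drop_reverse, List.reverse_reverse]
    rcases Nat.le_total (n a) (l a).length with h | h
    · rw [Nat.sub_sub_self h]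
    · rw [Nat.sub_eq_zero_of_le h, Nat.sub_zero, List.take_of_length_le h, List.take_length]

theorem PT.replicate {n : α → ℕ} {f : α → β} (hn : PT n) (hf : PT f) :
    PT (fun a => List.replicate (n a) (f a)) :=
  (PT.map (g := fun a _ => f a) (PT.range hn) (hf.comp PT.id.fst)).congr fun a => by
    rw [List.map_const', List.length_range]

/-- The list with the indices of its elements. -/
theorem PT.zipIdx {l : α → List β} (hl : PT l) [Inhabited β] :
    PT (fun a => (l a).zipIdx) :=
  (PT.map (g := fun a i => ((l a).getD i default, i)) (PT.range hl.length)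
    (PT.pair (PT.listGetD (hl.comp PT.id.fst) PT.id.snd (PT.const default))
      PT.id.snd)).congr fun a => by
    apply List.ext_getElem
    · simp
    · intro i h1 h2
      simp only [List.length_map, List.length_range] at h1
      simp [List.getElem_zipIdx, List.getD_eq_getElem?_getD, h1]

/-! ### Equality -/

theorem PT.treeCases {t : α → T} {f : α → γ} {g : α → T → T → γ} (ht : PT t)
    (hf : PT f) (hg : PT (fun p : α × (T × T) => g p.1 p.2.1 p.2.2)) :
    PT (fun a => T.casesOn (motive := fun _ => γ) (t a) (f a) (g a)) := by
  refine Comp.case ht ?_ ?_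
  · refine Comp.congr (Comp.sub hf Subtype.val) (fun _ => rfl) ?_
    rintro ⟨a, ha⟩
    simp only [toT_T] at ha
    simp [ha]
  · refine Comp.congr (Comp.sub hg (fun j : {a // toT (t a) ≠ .nil} =>
        (j.1, (match t j.1 with | .nil => (.nil, .nil) | .cons x y => (x, y))))) ?_ ?_
    · rintro ⟨a, ha⟩
      cases h : t a with
      | nil => simp [h] at ha
      | cons x y => simp [h]
    · rintro ⟨a, ha⟩
      cases h : t a with
      | nil => simp [h] at ha
      | cons x y => simp [h]

/-- One step of the comparison of two trees, given as a list of pairs still to be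
compared. -/
def eqStep (s : Bool × List (T × T)) : Bool × List (T × T) :=
  match s.2 with
  | [] => s
  | (.nil, .nil) :: l => (s.1, l)
  | (.nil, .cons _ _) :: l => (false, l)
  | (.cons _ _, .nil) :: l => (false, l)
  | (.cons x y, .cons u v) :: l => (s.1, (x, u) :: (y, v) :: l)

theorem PT.eqStep : PT eqStep := by
  have h : PT (fun s : Bool × List (T × T) =>
      List.casesOn (motive := fun _ => Bool × List (T × T)) s.2 s (fun p l =>
        T.casesOn (motive := fun _ => Bool × List (T × T)) p.1
          (T.casesOn (motive := fun _ => Bool × List (T × T)) p.2 (s.1, l)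
            (fun _ _ => (false, l)))
          (fun x y => T.casesOn (motive := fun _ => Bool × List (T × T)) p.2 (false, l)
            (fun u v => (s.1, (x, u) :: (y, v) :: l))))) := by
    refine PT.listCases (l := fun s : Bool × List (T × T) => s.2) (f := fun s => s)
      (g := fun s p l => T.casesOn (motive := fun _ => Bool × List (T × T)) p.1
          (T.casesOn (motive := fun _ => Bool × List (T × T)) p.2 (s.1, l)
            (fun _ _ => (false, l)))
          (fun x y => T.casesOn (motive := fun _ => Bool × List (T × T)) p.2 (false, l)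
            (fun u v => (s.1, (x, u) :: (y, v) :: l)))) PT.id.snd PT.id ?_
    refine PT.treeCases
      (α := (Bool × List (T × T)) × ((T × T) × List (T × T))) (t := fun q => q.2.1.1)
      (f := fun q => T.casesOn (motive := fun _ => Bool × List (T × T)) q.2.1.2
        (q.1.1, q.2.2) (fun _ _ => (false, q.2.2)))
      (g := fun q x y => T.casesOn (motive := fun _ => Bool × List (T × T)) q.2.1.2
        (false, q.2.2) (fun u v => (q.1.1, (x, u) :: (y, v) :: q.2.2)))
      PT.id.snd.fst.fst ?_ ?_
    · exact PT.treeCases (α := (Bool × List (T × T)) × ((T × T) × List (T × T)))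
        (t := fun q => q.2.1.2) (f := fun q => (q.1.1, q.2.2))
        (g := fun q _ _ => (false, q.2.2)) PT.id.snd.fst.snd
        (PT.pair PT.id.fst.fst PT.id.snd.snd)
        (PT.pair (PT.const false) PT.id.fst.snd.snd)
    · exact PT.treeCases
        (α := ((Bool × List (T × T)) × ((T × T) × List (T × T))) × (T × T))
        (t := fun q => q.1.2.1.2) (f := fun q => (false, q.1.2.2))
        (g := fun q u v => (q.1.1.1, (q.2.1, u) :: (q.2.2, v) :: q.1.2.2))
        PT.id.fst.snd.fst.snd (PT.pair (PT.const false) PT.id.fst.snd.snd)
        (PT.pair PT.id.fst.fst.fst.fst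
          (PT.cons (PT.pair PT.id.fst.snd.fst PT.id.snd.fst)
            (PT.cons (PT.pair PT.id.fst.snd.snd PT.id.snd.snd) PT.id.fst.fst.snd.snd)))
  refine h.congr ?_
  rintro ⟨b, l⟩
  cases l with
  | nil => rfl
  | cons p l =>
    obtain ⟨x, y⟩ := p
    cases x <;> cases y <;> rfl

/-- The total size of the first components, a bound for the number of steps. -/
def eqMeas : List (T × T) → ℕ
  | [] => 0
  | p :: l => p.1.size + eqMeas l

theorem eqStep_iter : ∀ (m : ℕ) (b : Bool) (l : List (T × T)), eqMeas l ≤ m →
    PolyTime.eqStep^[m] (b, l) = (b && l.all (fun p => decide (p.1 = p.2)), []) := by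
  intro m
  induction m with
  | zero =>
    intro b l hl
    cases l with
    | nil => simp
    | cons p l =>
      have := T.size_pos p.1
      simp only [eqMeas] at hl; omega
  | succ m ih =>
    intro b l hl
    rw [iterate_succ_apply]
    cases l with
    | nil =>
      have : PolyTime.eqStep (b, []) = (b, []) := rfl
      rw [this, ih b [] (by simp [eqMeas])]
    | cons p l =>
      obtain ⟨x, y⟩ := p
      cases x <;> cases y
      · simp only [eqMeas, T.size] at hl
        have : PolyTime.eqStep (b, (T.nil, T.nil) :: l) = (b, l) := rfl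
        rw [this, ih b l (by omega)]; simp
      · rename_i u v
        simp only [eqMeas, T.size] at hl
        have : PolyTime.eqStep (b, (T.nil, T.cons u v) :: l) = (false, l) := rfl
        rw [this, ih false l (by omega)]; simp
      · rename_i u v
        simp only [eqMeas, T.size] at hl
        have : PolyTime.eqStep (b, (T.cons u v, T.nil) :: l) = (false, l) := rfl
        rw [this, ih false l (by omega)]; simp
      · rename_i x1 x2 y1 y2
        simp only [eqMeas, T.size] at hl
        have : PolyTime.eqStep (b, (T.cons x1 x2, T.cons y1 y2) :: l) =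
          (b, (x1, y1) :: (x2, y2) :: l) := rfl
        rw [this, ih b _ (by simp only [eqMeas]; omega)]
        by_cases h1 : x1 = y1 <;> by_cases h2 : x2 = y2 <;> simp [h1, h2]

theorem sz_eqStep_le (s : Bool × List (T × T)) :
    sz (PolyTime.eqStep s) ≤ sz s := by
  obtain ⟨b, l⟩ := s
  cases l with
  | nil => exact le_rfl
  | cons p l =>
    obtain ⟨x, y⟩ := p
    have hb : 1 ≤ sz b := sz_pos b
    cases x <;> cases y <;>
      simp [PolyTime.eqStep, sz_prod, sz, T.size] <;> (try simp [sz] at hb) <;> omega

theorem PT.treeEq {f g : α → T} (hf : PT f) (hg : PT g) :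
    PT (fun a => decide (f a = g a)) := by
  have hle : ∀ (m : ℕ) (s : Bool × List (T × T)), sz (PolyTime.eqStep^[m] s) ≤ sz s := by
    intro m
    induction m with
    | zero => intro s; exact le_rfl
    | succ m ih => intro s; rw [iterate_succ_apply]; exact (ih _).trans (sz_eqStep_le s)
  have h1 : PT (fun a => PolyTime.eqStep^[sz (f a)] (true, [(f a, g a)])) := by
    refine PT.iterSize (g := fun _ s => PolyTime.eqStep s)
      (f := fun a => (true, [(f a, g a)])) hf
      (PT.pair (PT.const true) (PT.cons (PT.pair hf hg) (PT.const [])))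
      (PT.eqStep.comp PT.id.snd)
      (B := fun a => sz (f a) + sz (g a) + 8)
      ((hf.bdd.add hg.bdd).add (Bdd.const 8)) ?_
    intro a m _
    refine (hle m _).trans ?_
    simp only [sz_pair, sz_cons, sz_true, sz_nil]; omega
  refine h1.fst.congr fun a => ?_
  rw [eqStep_iter _ _ _ (by simp [eqMeas, sz])]
  simp

/-- Equality for types with injective representation. -/
theorem PT.eqOfInj [DecidableEq β] (hinj : Injective (toT : β → T)) {f g : α → β}
    (hf : PT f) (hg : PT g) : PT (fun a => decide (f a = g a)) :=
  (PT.treeEq (f := fun a => toT (f a)) (g := fun a => toT (g a)) hf hg).congr fun a => by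
    rw [decide_eq_decide]
    exact hinj.eq_iff

end Pool.Agent.PolyTime
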