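import Pool.Agent.Lib.PolyTime.Binary
import Pool.Agent.Lib.PolyTime.Raw

/-!
# Machines whose running time is not polynomial

Parametrised algorithms: a polynomial-time function `R (n, 1 ^ t)`, applied with
`t = 2 ^ (2 j n + 1)`, gives a machine with running time polynomial in `size n + t`.
-/

namespace Pool.Agent.PolyTime

open Turing Function Polynomial Computability

/-- A program from an input stack to an output stack gives a machine. -/
theorem tm2_time_of_run {α β : Type} {ea : α → List Bool} {eb : β → List Bool} {f : α → β}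
    (p : P) (b : ℕ → ℕ)
    (h : ∀ a, Run p (st (ea a) [] [] [] [] []) (st [] (eb (f a)) [] [] [] [])
      (b (ea a).length)) :
    ∃ M : TM2ComputableInTime ea eb f, M.time = fun n => b n + 1 := by
  refine ⟨{ tm := machine p
            inputAlphabet := Equiv.refl _
            outputAlphabet := Equiv.refl _
            time := fun n => b n + 1
            outputsFun := fun a => ?_ }, rfl⟩
  have hs : ∃ m, m ≤ b (ea a).length ∧
      ∃ v, Reach (machine p).m m
        ⟨some (machine p).main, (machine p).initialState, st (ea a) [] [] [] [] []⟩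
        ⟨some none, v, st [] (eb (f a)) [] [] [] []⟩ := by
    obtain ⟨m, hm, hE⟩ := h a
    obtain ⟨v, hv⟩ := sim (machine p).m hE some none (fun _ => rfl) (fun _ => none)
    exact ⟨m, hm, v, hv⟩
  classical
  have hm' := Classical.choose_spec hs
  refine
    { steps := Classical.choose hs + 1
      evals_in_steps := ?_
      steps_le_m := ?_ }
  · obtain ⟨v, hv⟩ := hm'.2
    have h3 : Reach (machine p).m 1
        ⟨some none, v, st [] (eb (f a)) [] [] [] []⟩
        ⟨none, fun _ => none, st [] (eb (f a)) [] [] [] []⟩ := Reach.one rfl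
    have h4 := hv.trans h3
    have i1 : initList (machine p) (List.map (Equiv.refl _).invFun (ea a)) =
        ⟨some (machine p).main, (machine p).initialState, st (ea a) [] [] [] [] []⟩ := by
      unfold initList
      congr 1
      funext k
      cases k
      · simp [machine] <;> rfl
      all_goals rfl
    have i2 : haltList (machine p) (List.map (Equiv.refl _).invFun (eb (f a))) =
        ⟨none, fun _ => none, st [] (eb (f a)) [] [] [] []⟩ := by
      unfold haltList
      congr 1
      funext k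
      cases k
      · rfl
      · simp [machine] <;> rfl
      all_goals rfl
    unfold Reach at h4
    exact (congrArg (fun z => (flip bind (TM2.step (machine p).m))^[
      Classical.choose hs + 1] (some z)) i1).trans (h4.trans (congrArg some i2.symm))
  · have h5 := hm'.1
    omega

/-- Iteration of a program, with running time in terms of the sizes which occur. -/
theorem run_iter {κ : Type*} {s : κ → T} {next : κ → κ} (h : Comp s (fun k => s (next k))) :
    ∃ (p : P) (b : Polynomial ℕ), ∀ (x : T) (k : κ) (M : ℕ),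
      (∀ m ≤ x.size, (s (next^[m] k)).size ≤ M) →
      ∀ (i o : List Bool) (d e c n : List (Option Bool)),
        Run p (st i o (tenc (T.cons x (s k)) ++ d) e c n)
          (st i o (tenc (s (next^[x.size] k)) ++ d) e c n) (b.eval (x.size + M)) := by
  obtain ⟨p, b, h⟩ := h
  refine ⟨.seq pop1 (.seq readTree (.seq (.push .itr none) (.seq auxToItr (rep p)))),
    1 + ((5 * X + 4) + (1 + ((2 * X + 1) + (X * (b + 1) + 1)))),
    fun x k M hM i o d e c n => ?_⟩
  have r1 := run_pop1 i o (some true) (tenc x ++ (tenc (s k) ++ d)) e c n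
  have r2 := run_readTree i o x (tenc (s k) ++ d) e c n
  rw [tenc_reverse] at r2
  have r3 : Run (.push .itr none)
    (st i o (tenc (s k) ++ d) (x.enc.reverse.map some ++ (none :: e)) c n)
    (st i o (tenc (s k) ++ d) (x.enc.reverse.map some ++ (none :: e)) c (none :: n)) 1 :=
    Run.push (by simp)
  have r4 := run_auxToItr i o (tenc (s k) ++ d) e c (none :: n) x.enc
  have r5 := run_rep p i o e c n (b.eval M) x.size
    (fun m => tenc (s (next^[m] k)) ++ d) (by
      intro m hm n'
      have := h (next^[m] k) i o d e c n'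
      simp only [iterate_succ', comp_apply]
      exact this.mono (poly_mono b (hM m hm.le)))
  have e1 : tenc (T.cons x (s k)) ++ d =
      some true :: (tenc x ++ (tenc (s k) ++ d)) := by simp
  rw [e1]
  rw [T.length_enc] at r4
  refine (Run.seq r1 (Run.seq r2 (Run.seq r3 (Run.seq r4 r5)))).mono ?_
  simp only [eval_add, eval_mul, eval_X, eval_one, eval_ofNat]
  have hb := poly_mono b (Nat.le_add_left M x.size)
  have := Nat.mul_le_mul (Nat.le_add_right x.size M) (Nat.add_le_add_right hb 1)
  omega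

theorem encodePosNum_eq (p : PosNum) : encodePosNum p = Nat.bits (p : ℕ) := by
  induction p with
  | one => simp [encodePosNum]
  | bit0 p ih =>
    have hp : (p : ℕ) ≠ 0 := (PosNum.cast_pos p).ne'
    rw [encodePosNum, ih, PosNum.cast_bit0, ← two_mul, Nat.bit0_bits _ hp]
  | bit1 p ih =>
    rw [encodePosNum, ih, PosNum.cast_bit1, ← two_mul, Nat.bit1_bits]

theorem encodeNat_eq (n : ℕ) : encodeNat n = Nat.bits n := by
  unfold encodeNat
  have h : ((n : Num) : ℕ) = n := Num.to_of_nat n
  cases hm : (n : Num) with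
  | zero =>
    rw [hm] at h
    have h0 : (0 : ℕ) = n := h
    rw [← h0]; rfl
  | pos p =>
    rw [hm] at h
    have h0 : (p : ℕ) = n := h
    rw [← h0]
    exact encodePosNum_eq p

/-- Parametrised algorithms. -/
theorem exists_machine {f : ℕ → Bool} {R : Bin × ℕ → Bool} (hR : PT R) {j : Bin → ℕ}
    (hj : PT j) (hf : ∀ n, R (⟨n⟩, 2 ^ (2 * j ⟨n⟩ + 1)) = f n) (J : ℕ → ℕ)
    (hJ : ∀ n : ℕ, j ⟨n⟩ ≤ J n.size) :
    ∃ (Q : Polynomial ℕ) (M : TM2ComputableInTime encodeNat encodeBool f),
      ∀ L, M.time L = Q.eval (L + 2 ^ (2 * J L + 1)) := by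
  obtain ⟨p0, b0, h0⟩ := inFmt_raw
  have hF : PT (fun n : Bin => (j n, (n, 1))) := PT.pair hj (PT.pair PT.id (PT.const 1))
  obtain ⟨p1, b1, h1⟩ := hF
  have hD : PT (fun s : Bin × ℕ => (s.1, s.2 + s.2)) :=
    PT.pair PT.id.fst (PT.add PT.id.snd PT.id.snd)
  obtain ⟨p2, b2, h2⟩ := run_iter (s := fun s : Bin × ℕ => toT s)
    (next := fun s => (s.1, s.2 + s.2)) hD
  obtain ⟨p3, b3, h3⟩ := hR
  obtain ⟨p4, b4, h4⟩ := outFmt_bool
  have hit : ∀ (n : Bin) (m : ℕ),
      (fun s : Bin × ℕ => (s.1, s.2 + s.2))^[m] (n, 1) = (n, 2 ^ m) := by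
    intro n m
    induction m with
    | zero => rfl
    | succ m ih => rw [iterate_succ', comp_apply, ih, pow_succ, mul_two]
  set Q : Polynomial ℕ := b0 + (b1.comp (16 * X) + (b2.comp (16 * X) +
    (b3.comp (16 * X) + b4.comp (16 * X)))) with hQ
  obtain ⟨M, hM⟩ := tm2_time_of_run (ea := encodeNat) (eb := encodeBool) (f := f)
    (.seq p0 (.seq p1 (.seq p2 (.seq p3 p4)))) (fun L => Q.eval (L + 2 ^ (2 * J L + 1)))
    (by
      intro n
      rw [encodeNat_eq, Nat.size_eq_bits_len]
      have g0 := h0 (Nat.bits n)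
      simp only [Nat.size_eq_bits_len] at g0
      have g1 := h1 ⟨n⟩ [] [] [] [] [] []
      rw [List.append_nil, List.append_nil] at g1
      set J' := J n.size with hJ'
      have hj' := hJ n
      set Y := n.size + 2 ^ (2 * J' + 1) with hY
      have hpow : 2 ^ (2 * j ⟨n⟩ + 1) ≤ 2 ^ (2 * J' + 1) :=
        Nat.pow_le_pow_right (by norm_num) (by omega)
      have hlt : 2 * j ⟨n⟩ + 1 < 2 ^ (2 * j ⟨n⟩ + 1) := Nat.lt_two_pow_self
      have hsz := sz_bin_le ⟨n⟩
      simp only at hsz
      have hx : (toT (j ⟨n⟩)).size = 2 * j ⟨n⟩ + 1 := sz_nat _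
      have g2 := h2 (toT (j ⟨n⟩)) (⟨n⟩, 1) (4 * n.size + 1 + (2 * 2 ^ (2 * J' + 1) + 1) + 1) (by
        intro m hm
        rw [hit]
        change sz ((⟨n⟩ : Bin), 2 ^ m) ≤ _
        rw [sz_prod, sz_nat]
        simp only
        rw [hx] at hm
        have : 2 ^ m ≤ 2 ^ (2 * J' + 1) := Nat.pow_le_pow_right (by norm_num) (by omega)
        omega) [] [] [] [] [] []
      rw [List.append_nil, List.append_nil, hit, hx] at g2
      have g3 := h3 (⟨n⟩, 2 ^ (2 * j ⟨n⟩ + 1)) [] [] [] [] [] []
      simp only [List.append_nil, hf n] at g3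
      have g4 := h4 (f n)
      have g1' : Run p1 (st [] [] (tenc (toT (Nat.bits n))) [] [] [])
        (st [] [] (tenc (T.cons (toT (j ⟨n⟩)) (toT ((⟨n⟩ : Bin), 1)))) [] [] [])
        (b1.eval (toT (⟨n⟩ : Bin)).size) := g1
      refine (Run.seq g0 (Run.seq g1' (Run.seq g2 (Run.seq g3 g4)))).mono ?_
      simp only [hQ, eval_add, eval_comp, eval_mul, eval_X, eval_ofNat]
      have hY2 : 2 ≤ 2 ^ (2 * J' + 1) := by
        calc 2 = 2 ^ 1 := rfl
          _ ≤ _ := Nat.pow_le_pow_right (by norm_num) (by omega)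
      have a0 := poly_mono b0 (show n.size ≤ Y by omega)
      have a1 := poly_mono b1 (show (toT (⟨n⟩ : Bin)).size ≤ 16 * Y by
        have : (toT (⟨n⟩ : Bin)).size ≤ 4 * n.size + 1 := hsz
        omega)
      have a2 := poly_mono b2 (show 2 * j ⟨n⟩ + 1 +
        (4 * n.size + 1 + (2 * 2 ^ (2 * J' + 1) + 1) + 1) ≤ 16 * Y by omega)
      have a3 := poly_mono b3 (show (toT ((⟨n⟩ : Bin), 2 ^ (2 * j ⟨n⟩ + 1))).size ≤ 16 * Y by
        have e1 : (toT ((⟨n⟩ : Bin), 2 ^ (2 * j ⟨n⟩ + 1))).size
          = sz (⟨n⟩ : Bin) + sz (2 ^ (2 * j ⟨n⟩ + 1)) + 1 := rfl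
        rw [e1, sz_nat]
        omega)
      have a4 := poly_mono b4 (show sz (f n) ≤ 16 * Y by
        have := sz_bool (f n); omega)
      exact Nat.add_le_add a0 (Nat.add_le_add a1 (Nat.add_le_add a2 (Nat.add_le_add a3 a4))))
  refine ⟨Q + 1, M, fun L => ?_⟩
  rw [hM]; simp

end Pool.Agent.PolyTime
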