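import Pool.Agent.Lib.PolyTime.Lists

/-!
# Further polynomial-time computable functions
-/

namespace Pool.Agent.PolyTime

open Function Polynomial

universe u v w

/-- Types whose representation by trees is injective. -/
class InjRep (α : Type u) [Rep α] : Prop where
  inj : Injective (toT : α → T)

section inj
variable {α : Type u} {β : Type v} [Rep α] [Rep β]

theorem encode_injective [InjRep α] : Injective (encode : α → List Bool) :=
  T.enc_injective.comp InjRep.inj

instance : InjRep T := ⟨fun _ _ h => h⟩
instance : InjRep Unit := ⟨fun _ _ _ => rfl⟩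
instance : InjRep Bool := ⟨fun a b h => by cases a <;> cases b <;> simp_all⟩
instance : InjRep ℕ := ⟨fun a b h => by
  have := congrArg T.size h
  have h1 := sz_nat a
  have h2 := sz_nat b
  unfold sz at h1 h2
  omega⟩
instance [InjRep α] [InjRep β] : InjRep (α × β) := ⟨fun a b h => by
  rw [toT_prod, toT_prod, T.cons.injEq] at h
  exact Prod.ext (InjRep.inj h.1) (InjRep.inj h.2)⟩
instance [InjRep α] : InjRep (List α) := ⟨fun a => by
  induction a with
  | nil =>
    intro b h
    cases b with
    | nil => rfl
    | cons b l => simp at h
  | cons a l ih =>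
    intro b h
    cases b with
    | nil => simp at h
    | cons b l' =>
      rw [toT_cons, toT_cons, T.cons.injEq] at h
      rw [InjRep.inj h.1, ih h.2]⟩
instance [InjRep α] : InjRep (Option α) := ⟨fun a b h => by
  cases a <;> cases b
  · rfl
  · simp at h
  · simp at h
  · rw [toT_some, toT_some, T.cons.injEq] at h
    rw [InjRep.inj h.1]⟩
instance [InjRep α] [InjRep β] : InjRep (α ⊕ β) := ⟨fun a b h => by
  cases a <;> cases b
  · rw [toT_inl, toT_inl, T.cons.injEq] at h
    rw [InjRep.inj h.2]
  · simp at h
  · simp at h
  · rw [toT_inr, toT_inr, T.cons.injEq] at h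
    rw [InjRep.inj h.2]⟩

end inj

variable {α : Type u} {β : Type v} {γ : Type w} {σ : Type*} {δ : Type*}
variable [Rep α] [Rep β] [Rep γ] [Rep σ] [Rep δ]

theorem PT.eq [InjRep β] [DecidableEq β] {f g : α → β} (hf : PT f) (hg : PT g) :
    PT (fun a => decide (f a = g a)) := PT.eqOfInj InjRep.inj hf hg

theorem PT.beq [InjRep β] [DecidableEq β] {f g : α → β} (hf : PT f) (hg : PT g) :
    PT (fun a => f a == g a) := (PT.eq hf hg).congr fun a => by
  rw [beq_eq_decide]

theorem PT.optionMap {f : α → Option β} {g : α → β → γ} (hf : PT f)
    (hg : PT (fun p : α × β => g p.1 p.2)) : PT (fun a => (f a).map (g a)) :=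
  (PT.optionCases (g := fun a b => Option.some (g a b)) hf (PT.const none)
    (PT.some hg)).congr fun a => by cases f a <;> rfl

theorem PT.optionBind {f : α → Option β} {g : α → β → Option γ} (hf : PT f)
    (hg : PT (fun p : α × β => g p.1 p.2)) : PT (fun a => (f a).bind (g a)) :=
  (PT.optionCases (g := fun a b => g a b) hf (PT.const none) hg).congr
    fun a => by cases f a <;> rfl

theorem PT.toList {f : α → Option β} (hf : PT f) : PT (fun a => (f a).toList) :=
  (PT.optionCases (g := fun _ b => [b]) hf (PT.const [])
    (PT.cons PT.id.snd (PT.const []))).congr fun a => by cases f a <;> rfl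

theorem PT.find? {l : α → List β} {g : α → β → Bool} (hl : PT l)
    (hg : PT (fun p : α × β => g p.1 p.2)) : PT (fun a => (l a).find? (g a)) :=
  (PT.head? (PT.filter hl hg)).congr fun a => by simp

theorem PT.filterMap {l : α → List β} {g : α → β → Option γ} (hl : PT l)
    (hg : PT (fun p : α × β => g p.1 p.2)) : PT (fun a => (l a).filterMap (g a)) :=
  (PT.flatMap (g := fun a b => (g a b).toList) hl hg.toList).congr fun a => by
    induction l a with
    | nil => rfl
    | cons b l ih =>
      rw [List.flatMap_cons, ih, List.filterMap_cons]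
      cases g a b <;> rfl

theorem PT.sum {l : α → List ℕ} (hl : PT l) : PT (fun a => (l a).sum) := by
  have key : ∀ (l : List ℕ) (s : ℕ), l.foldl (fun acc b => acc + b) s = s + l.sum := by
    intro l
    induction l with
    | nil => intro s; simp
    | cons b l ih => intro s; simp only [List.foldl_cons, ih, List.sum_cons]; omega
  have hle : ∀ l : List ℕ, 2 * l.sum ≤ sz l := by
    intro l
    induction l with
    | nil => simp
    | cons b l ih => simp only [List.sum_cons, sz_cons, sz_nat]; omega
  refine (PT.foldl (g := fun _ acc b => acc + b) hl (PT.const 0)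
    (PT.add PT.id.snd.fst PT.id.snd.snd) (B := fun a => sz (l a) + 1)
    (hl.bdd.add (Bdd.const 1)) ?_).congr fun a => ?_
  · intro a l' hl'
    rw [key, sz_nat]
    have h1 := hle l'
    have h2 := sz_sublist hl'.sublist
    omega
  · rw [key]; omega

/-- The first index at which an element occurs (`0` if there is none). -/
def idx [DecidableEq β] (x : β) (l : List β) : ℕ :=
  (((List.range l.length).filter (fun i => decide (l[i]? = some x))).head?).getD 0

omit [Rep β] in
theorem getElem?_idx [DecidableEq β] {x : β} {l : List β} (h : x ∈ l) :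
    l[idx x l]? = some x := by
  obtain ⟨i, hi, rfl⟩ := List.mem_iff_getElem.1 h
  unfold idx
  set L := (List.range l.length).filter (fun j => decide (l[j]? = some l[i])) with hL
  have hmem : i ∈ L := by
    rw [hL, List.mem_filter, List.mem_range]
    exact ⟨hi, by simp⟩
  cases hh : L.head? with
  | none =>
    rw [List.head?_eq_none_iff] at hh
    rw [hh] at hmem; simp at hmem
  | some j =>
    have hj : j ∈ L := List.mem_of_mem_head? (by rw [hh]; rfl)
    rw [hL, List.mem_filter] at hj
    simpa using hj.2

omit [Rep β] in
theorem idx_lt [DecidableEq β] {x : β} {l : List β} (h : x ∈ l) : idx x l < l.length := by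
  have := getElem?_idx h
  by_contra hc
  rw [List.getElem?_eq_none (by omega)] at this
  simp at this

theorem PT.idx [InjRep β] [DecidableEq β] {x : α → β} {l : α → List β} (hx : PT x)
    (hl : PT l) : PT (fun a => PolyTime.idx (x a) (l a)) :=
  PT.getD (PT.head? (PT.filter (g := fun a i => decide ((l a)[i]? = Option.some (x a)))
    (PT.range hl.length)
    (PT.eq (PT.getElem? (hl.comp PT.id.fst) PT.id.snd) (PT.some (hx.comp PT.id.fst)))))
    (PT.const 0)

theorem PT.contains [InjRep β] [DecidableEq β] {x : α → β} {l : α → List β} (hx : PT x)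
    (hl : PT l) : PT (fun a => decide (x a ∈ l a)) :=
  (PT.any (g := fun a b => decide (b = x a)) hl
    (PT.eq PT.id.snd (hx.comp PT.id.fst))).congr fun a => by
    rw [Bool.eq_iff_iff, List.any_eq_true, decide_eq_true_iff]
    constructor
    · rintro ⟨b, hb, h⟩
      rw [decide_eq_true_iff] at h
      exact h ▸ hb
    · intro h
      exact ⟨_, h, by simp⟩

end Pool.Agent.PolyTime
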