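import Pool.Agent.Lib.PolyTime.Comp

/-!
# A library of polynomial-time computable functions

Representations of the usual data types by binary trees and closure properties of `PT`.
All lemmas are in pointwise form, relative to a context type `α`.
-/

namespace Pool.Agent.PolyTime

open Function Polynomial

universe u v w

variable {α : Type u} {β : Type v} {γ : Type w} {σ : Type*} {δ : Type*}

instance : Rep Unit := ⟨fun _ => .nil⟩

instance : Rep Bool := ⟨fun b => match b with
  | false => .nil
  | true => .cons .nil .nil⟩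

/-- Unary representation of a natural number. -/
def natT : ℕ → T
  | 0 => .nil
  | n + 1 => .cons .nil (natT n)

instance : Rep ℕ := ⟨natT⟩

instance [Rep α] [Rep β] : Rep (α × β) := ⟨fun p => .cons (toT p.1) (toT p.2)⟩

/-- Representation of a list. -/
def listT [Rep α] : List α → T
  | [] => .nil
  | a :: l => .cons (toT a) (listT l)

instance [Rep α] : Rep (List α) := ⟨listT⟩

instance [Rep α] : Rep (Option α) := ⟨fun o => match o with
  | none => .nil
  | some a => .cons (toT a) .nil⟩

instance [Rep α] [Rep β] : Rep (α ⊕ β) := ⟨fun o => match o with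
  | .inl a => .cons .nil (toT a)
  | .inr b => .cons (.cons .nil .nil) (toT b)⟩

section simps
variable [Rep α] [Rep β]

@[simp] theorem toT_unit (a : Unit) : toT a = .nil := rfl
@[simp] theorem toT_false : toT false = .nil := rfl
@[simp] theorem toT_true : toT true = .cons .nil .nil := rfl
@[simp] theorem toT_zero : toT (0 : ℕ) = .nil := rfl
@[simp] theorem toT_succ (n : ℕ) : toT (n + 1) = .cons .nil (toT n) := rfl
@[simp] theorem toT_pair (a : α) (b : β) : toT (a, b) = .cons (toT a) (toT b) := rfl
theorem toT_prod (p : α × β) : toT p = .cons (toT p.1) (toT p.2) := rfl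
@[simp] theorem toT_nil : toT ([] : List α) = .nil := rfl
@[simp] theorem toT_cons (a : α) (l : List α) : toT (a :: l) = .cons (toT a) (toT l) := rfl
@[simp] theorem toT_none : toT (none : Option α) = .nil := rfl
@[simp] theorem toT_some (a : α) : toT (some a) = .cons (toT a) .nil := rfl
@[simp] theorem toT_inl (a : α) : toT (Sum.inl a : α ⊕ β) = .cons .nil (toT a) := rfl
@[simp] theorem toT_inr (b : β) : toT (Sum.inr b : α ⊕ β) = .cons (.cons .nil .nil) (toT b) :=
  rfl

@[simp] theorem sz_unit (a : Unit) : sz a = 1 := rfl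
@[simp] theorem sz_false : sz false = 1 := rfl
@[simp] theorem sz_true : sz true = 3 := rfl
theorem sz_bool (b : Bool) : sz b ≤ 3 := by cases b <;> simp
@[simp] theorem sz_nat (n : ℕ) : sz n = 2 * n + 1 := by
  induction n with
  | zero => rfl
  | succ n ih => simp only [sz, toT_succ, T.size] at ih ⊢; omega
@[simp] theorem sz_pair (a : α) (b : β) : sz (a, b) = sz a + sz b + 1 := rfl
theorem sz_prod (p : α × β) : sz p = sz p.1 + sz p.2 + 1 := rfl
@[simp] theorem sz_nil : sz ([] : List α) = 1 := rfl
@[simp] theorem sz_cons (a : α) (l : List α) : sz (a :: l) = sz a + sz l + 1 := rfl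
@[simp] theorem sz_none : sz (none : Option α) = 1 := rfl
@[simp] theorem sz_some (a : α) : sz (some a) = sz a + 2 := rfl
theorem sz_pos (a : α) : 1 ≤ sz a := T.size_pos _

theorem length_le_sz (l : List α) : l.length ≤ sz l := by
  induction l with
  | nil => simp
  | cons a l ih => simp; omega

theorem sz_append (l l' : List α) : sz (l ++ l') + 1 = sz l + sz l' := by
  induction l with
  | nil => simp; omega
  | cons a l ih => simp; omega

theorem sz_mem_le {a : α} {l : List α} (h : a ∈ l) : sz a ≤ sz l := by
  induction l with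
  | nil => simp at h
  | cons b l ih =>
    rcases List.mem_cons.1 h with rfl | h
    · simp; omega
    · have := ih h; simp; omega

theorem sz_reverse (l : List α) : sz l.reverse = sz l := by
  induction l with
  | nil => rfl
  | cons a l ih =>
    have := sz_append l.reverse [a]
    simp at this ⊢; omega

theorem sz_le_of_forall (l : List α) (B : ℕ) (h : ∀ a ∈ l, sz a ≤ B) :
    sz l ≤ l.length * (B + 1) + 1 := by
  induction l with
  | nil => simp
  | cons a l ih =>
    have h1 := ih fun b hb => h b (by simp [hb])
    have h2 := h a (by simp)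
    simp only [sz_cons, List.length_cons]
    have : (l.length + 1) * (B + 1) = l.length * (B + 1) + (B + 1) := by ring
    omega

theorem sz_sublist {l l' : List α} (h : l.Sublist l') : sz l ≤ sz l' := by
  induction h with
  | slnil => rfl
  | cons a _ ih => simp; omega
  | cons_cons a _ ih => simp; omega

end simps

/-! ### Polynomially bounded functions -/

/-- Bounded by a polynomial in the size of the argument. -/
def Bdd [Rep α] (f : α → ℕ) : Prop := ∃ q : Polynomial ℕ, ∀ a, f a ≤ q.eval (sz a)

section bdd
variable [Rep α] [Rep β] [Rep γ] {f g : α → ℕ}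

theorem Bdd.mono (h : Bdd g) (hfg : ∀ a, f a ≤ g a) : Bdd f := by
  obtain ⟨q, hq⟩ := h; exact ⟨q, fun a => (hfg a).trans (hq a)⟩

theorem Bdd.const (c : ℕ) : Bdd (fun _ : α => c) := ⟨C c, fun _ => by simp⟩

theorem Bdd.sz : Bdd (fun a : α => sz a) := ⟨X, fun _ => by simp⟩

theorem Bdd.add (hf : Bdd f) (hg : Bdd g) : Bdd (fun a => f a + g a) := by
  obtain ⟨p, hp⟩ := hf
  obtain ⟨q, hq⟩ := hg
  exact ⟨p + q, fun a => by simp only [eval_add]; exact Nat.add_le_add (hp a) (hq a)⟩

theorem Bdd.mul (hf : Bdd f) (hg : Bdd g) : Bdd (fun a => f a * g a) := by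
  obtain ⟨p, hp⟩ := hf
  obtain ⟨q, hq⟩ := hg
  exact ⟨p * q, fun a => by simp only [eval_mul]; exact Nat.mul_le_mul (hp a) (hq a)⟩

theorem Bdd.pow (hf : Bdd f) (k : ℕ) : Bdd (fun a => f a ^ k) := by
  obtain ⟨p, hp⟩ := hf
  exact ⟨p ^ k, fun a => by simp only [eval_pow]; exact Nat.pow_le_pow_left (hp a) k⟩

theorem Bdd.comp {f : β → ℕ} (hf : Bdd f) {h : α → β} (hh : Bdd fun a => PolyTime.sz (h a)) :
    Bdd (fun a => f (h a)) := by
  obtain ⟨p, hp⟩ := hf
  obtain ⟨q, hq⟩ := hh
  exact ⟨p.comp q, fun a => by
    simp only [eval_comp]; exact (hp _).trans (poly_mono p (hq a))⟩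

end bdd

/-! ### Basic closure properties -/

section basic
variable [Rep α] [Rep β] [Rep γ] [Rep σ] [Rep δ]

theorem PT.bdd {f : α → β} (h : PT f) : Bdd (fun a => sz (f a)) := h.size_le

theorem PT.congr {f g : α → β} (h : PT f) (hfg : ∀ a, f a = g a) : PT g := by
  rwa [← funext hfg]

theorem PT.id : PT (fun a : α => a) := Comp.id

theorem PT.comp {g : β → γ} {f : α → β} (hg : PT g) (hf : PT f) : PT (fun a => g (f a)) :=
  Comp.comp hf (Comp.sub hg f)

theorem PT.const (b : β) : PT (fun _ : α => b) := Comp.const _

theorem PT.pair {f : α → β} {g : α → γ} (hf : PT f) (hg : PT g) :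
    PT (fun a => (f a, g a)) := Comp.pair hf hg

theorem PT.fst {f : α → β × γ} (hf : PT f) : PT (fun a => (f a).1) :=
  Comp.comp hf Comp.fst

theorem PT.snd {f : α → β × γ} (hf : PT f) : PT (fun a => (f a).2) :=
  Comp.comp hf Comp.snd

/-- Composition with a curried function of two arguments. -/
theorem PT.comp₂ {g : β → γ → δ} (hg : PT (fun p : β × γ => g p.1 p.2)) {f : α → β}
    {h : α → γ} (hf : PT f) (hh : PT h) : PT (fun a => g (f a) (h a)) :=
  PT.comp hg (hf.pair hh)

theorem PT.swapArgs {g : α → β → γ} (hg : PT (fun p : α × β => g p.1 p.2)) :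
    PT (fun p : β × α => g p.2 p.1) := PT.comp₂ hg PT.id.snd PT.id.fst

theorem PT.ite {c : α → Bool} {f g : α → β} (hc : PT c) (hf : PT f) (hg : PT g) :
    PT (fun a => if c a then f a else g a) := by
  refine Comp.case hc ?_ ?_
  · refine Comp.congr (Comp.sub hg Subtype.val) (fun _ => rfl) ?_
    rintro ⟨a, ha⟩
    have : c a = false := by
      cases h : c a
      · rfl
      · simp [h] at ha
    simp [this]
  · refine Comp.congr (Comp.fst.comp (Comp.sub hf Subtype.val)) (fun _ => rfl) ?_
    rintro ⟨a, ha⟩
    have : c a = true := by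
      cases h : c a
      · simp [h] at ha
      · rfl
    simp [this]

theorem PT.cond {c : α → Bool} {f g : α → β} (hc : PT c) (hf : PT f) (hg : PT g) :
    PT (fun a => bif c a then f a else g a) :=
  (PT.ite hc hf hg).congr fun a => by cases c a <;> rfl

/-- Decidable propositions version of `PT.ite`. -/
theorem PT.iteProp {c : α → Prop} [DecidablePred c] {f g : α → β}
    (hc : PT (fun a => decide (c a))) (hf : PT f) (hg : PT g) :
    PT (fun a => if c a then f a else g a) :=
  (PT.ite hc hf hg).congr fun a => by by_cases h : c a <;> simp [h]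

theorem PT.natCases {n : α → ℕ} {f : α → β} {g : α → ℕ → β} (hn : PT n) (hf : PT f)
    (hg : PT (fun p : α × ℕ => g p.1 p.2)) :
    PT (fun a => Nat.casesOn (motive := fun _ => β) (n a) (f a) (g a)) := by
  refine Comp.case hn ?_ ?_
  · refine Comp.congr (Comp.sub hf Subtype.val) (fun _ => rfl) ?_
    rintro ⟨a, ha⟩
    cases h : n a with
    | zero => simp [h]
    | succ m => simp [h] at ha
  · have h1 : Comp (fun j : {a // toT (n a) ≠ .nil} => .cons (toT j.1) (toT (n j.1)))
        (fun j => .cons (toT j.1) (toT (n j.1 - 1))) := by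
      refine Comp.pair Comp.fst ?_
      have h2 : Comp (fun j : {a // toT (n a) ≠ .nil} => toT (n j.1))
          (fun j => toT (n j.1 - 1)) := by
        refine Comp.congr (Comp.snd (x := fun _ : {a // toT (n a) ≠ .nil} => T.nil)
          (y := fun j => toT (n j.1 - 1))) ?_ (fun _ => rfl)
        rintro ⟨a, ha⟩
        cases h : n a with
        | zero => simp [h] at ha
        | succ m => simp
      exact Comp.snd.comp h2
    refine Comp.comp h1 ?_
    refine Comp.congr (Comp.sub hg (fun j : {a // toT (n a) ≠ .nil} => (j.1, n j.1 - 1)))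
      (fun _ => rfl) ?_
    rintro ⟨a, ha⟩
    cases h : n a with
    | zero => simp [h] at ha
    | succ m => simp [h]

theorem PT.listCases {l : α → List β} {f : α → γ} {g : α → β → List β → γ} (hl : PT l)
    (hf : PT f) (hg : PT (fun p : α × (β × List β) => g p.1 p.2.1 p.2.2)) :
    PT (fun a => List.casesOn (motive := fun _ => γ) (l a) (f a) (g a)) := by
  refine Comp.case hl ?_ ?_
  · refine Comp.congr (Comp.sub hf Subtype.val) (fun _ => rfl) ?_
    rintro ⟨a, ha⟩
    cases h : l a with
    | nil => simp [h]
    | cons m => simp [h] at ha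
  · by_cases hβ : Nonempty β
    · obtain ⟨b0⟩ := hβ
      refine Comp.congr (Comp.sub hg (fun j : {a // toT (l a) ≠ .nil} =>
        (j.1, ((l j.1).headD b0, (l j.1).tail)))) ?_ ?_
      · rintro ⟨a, ha⟩
        cases h : l a with
        | nil => simp [h] at ha
        | cons b m => simp [h]
      · rintro ⟨a, ha⟩
        cases h : l a with
        | nil => simp [h] at ha
        | cons b m => simp [h]
    · refine ⟨.skip, 0, ?_⟩
      rintro ⟨a, ha⟩
      cases h : l a with
      | nil => simp [h] at ha
      | cons b m => exact absurd ⟨b⟩ hβ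

theorem PT.optionCases {l : α → Option β} {f : α → γ} {g : α → β → γ} (hl : PT l)
    (hf : PT f) (hg : PT (fun p : α × β => g p.1 p.2)) :
    PT (fun a => Option.casesOn (motive := fun _ => γ) (l a) (f a) (g a)) := by
  refine Comp.case hl ?_ ?_
  · refine Comp.congr (Comp.sub hf Subtype.val) (fun _ => rfl) ?_
    rintro ⟨a, ha⟩
    cases h : l a with
    | none => simp [h]
    | some m => simp [h] at ha
  · by_cases hβ : Nonempty β
    · obtain ⟨b0⟩ := hβ
      have h1 : Comp (fun j : {a // toT (l a) ≠ .nil} => .cons (toT j.1) (toT (l j.1)))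
          (fun j => .cons (toT j.1) (toT ((l j.1).getD b0))) := by
        refine Comp.pair Comp.fst ?_
        refine Comp.snd.comp ?_
        refine Comp.congr (Comp.fst (x := fun j : {a // toT (l a) ≠ .nil} =>
          toT ((l j.1).getD b0)) (y := fun _ => T.nil)) ?_ (fun _ => rfl)
        rintro ⟨a, ha⟩
        cases h : l a with
        | none => simp [h] at ha
        | some b => simp
      refine Comp.comp h1 ?_
      refine Comp.congr (Comp.sub hg (fun j : {a // toT (l a) ≠ .nil} =>
        (j.1, ((l j.1).getD b0)))) (fun _ => rfl) ?_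
      rintro ⟨a, ha⟩
      cases h : l a with
      | none => simp [h] at ha
      | some b => simp [h]
    · refine ⟨.skip, 0, ?_⟩
      rintro ⟨a, ha⟩
      cases h : l a with
      | none => simp [h] at ha
      | some b => exact absurd ⟨b⟩ hβ

/-! ### Constructors -/

theorem PT.succ {f : α → ℕ} (hf : PT f) : PT (fun a => f a + 1) :=
  Comp.pair (Comp.const .nil) hf

theorem PT.pred {f : α → ℕ} (hf : PT f) : PT (fun a => f a - 1) :=
  (PT.natCases hf (PT.const 0) PT.id.snd).congr fun a => by cases f a <;> rfl

theorem PT.cons {f : α → β} {g : α → List β} (hf : PT f) (hg : PT g) :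
    PT (fun a => f a :: g a) := Comp.pair hf hg

theorem PT.tail {f : α → List β} (hf : PT f) : PT (fun a => (f a).tail) :=
  (PT.listCases hf (PT.const []) PT.id.snd.snd).congr fun a => by cases f a <;> rfl

theorem PT.head? {f : α → List β} (hf : PT f) : PT (fun a => (f a).head?) :=
  (PT.listCases (g := fun _ b _ => some b) hf (PT.const none)
    (Comp.pair PT.id.snd.fst (Comp.const .nil))).congr fun a => by cases f a <;> rfl

theorem PT.some {f : α → β} (hf : PT f) : PT (fun a => some (f a)) :=
  Comp.pair hf (Comp.const .nil)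

theorem PT.getD {f : α → Option β} {g : α → β} (hf : PT f) (hg : PT g) :
    PT (fun a => (f a).getD (g a)) :=
  (PT.optionCases hf hg PT.id.snd).congr fun a => by cases f a <;> rfl

theorem PT.isNil {f : α → List β} (hf : PT f) : PT (fun a => (f a).isEmpty) :=
  (PT.listCases (g := fun _ _ _ => false) hf (PT.const true) (PT.const false)).congr
    fun a => by cases f a <;> rfl

theorem PT.isSome {f : α → Option β} (hf : PT f) : PT (fun a => (f a).isSome) :=
  (PT.optionCases (g := fun _ _ => true) hf (PT.const false) (PT.const true)).congr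
    fun a => by cases f a <;> rfl

theorem PT.not {f : α → Bool} (hf : PT f) : PT (fun a => !f a) :=
  (PT.ite hf (PT.const false) (PT.const true)).congr fun a => by cases f a <;> rfl

theorem PT.and {f g : α → Bool} (hf : PT f) (hg : PT g) : PT (fun a => f a && g a) :=
  (PT.ite hf hg (PT.const false)).congr fun a => by cases f a <;> rfl

theorem PT.or {f g : α → Bool} (hf : PT f) (hg : PT g) : PT (fun a => f a || g a) :=
  (PT.ite hf (PT.const true) hg).congr fun a => by cases f a <;> rfl

/-! ### Iteration -/

/-- Iteration in context, as many times as the size of a computed value. -/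
theorem PT.iterSize {c : α → γ} {f : α → σ} {g : α → σ → σ} (hc : PT c) (hf : PT f)
    (hg : PT (fun p : α × σ => g p.1 p.2)) {B : α → ℕ} (hB : Bdd B)
    (h : ∀ a, ∀ m ≤ sz (c a), sz ((g a)^[m] (f a)) ≤ B a) :
    PT (fun a => (g a)^[sz (c a)] (f a)) := by
  obtain ⟨q, hq⟩ := hB
  let next : α × σ → α × σ := fun p => (p.1, g p.1 p.2)
  have hnext : Comp (fun k : α × σ => toT k) (fun k => toT (next k)) :=
    PT.pair PT.id.fst hg
  have hit : ∀ (m : ℕ) (a : α) (s : σ), next^[m] (a, s) = (a, (g a)^[m] s) := by
    intro m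
    induction m with
    | zero => intro a s; rfl
    | succ m ih => intro a s; simp only [iterate_succ, comp_apply, next] at ih ⊢; rw [ih]
  have h1 := Comp.iter (x := fun a => toT (c a)) (k := fun a : α => (a, f a)) hnext
    (X + q + 1) (by
      intro a m hm
      rw [hit]
      have h2 := (h a m hm).trans (hq a)
      have h3 : sz a ≤ (T.cons (toT (c a)) (toT ((a, f a) : α × σ))).size := by
        simp only [T.size, toT_pair]
        simp only [sz]; omega
      have h4 := poly_mono q h3
      change sz ((a, (g a)^[m] (f a)) : α × σ) ≤ _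
      simp only [sz_pair, eval_add, eval_X, eval_one]
      omega)
  have h2 : Comp (fun a : α => toT a) (fun a => .cons (toT (c a)) (toT ((a, f a) : α × σ))) :=
    Comp.pair hc (PT.pair PT.id hf)
  have h3 := (h2.comp h1).comp (z := fun a => toT ((g a)^[sz (c a)] (f a))) (by
    refine Comp.congr (Comp.snd (x := fun a : α => toT a)
      (y := fun a => toT ((g a)^[sz (c a)] (f a)))) ?_ (fun _ => rfl)
    intro a
    change _ = toT (next^[sz (c a)] (a, f a))
    rw [hit]; rfl)
  exact h3

/-- Primitive recursion with a size bound. -/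
theorem PT.natRec {n : α → ℕ} {f : α → σ} {g : α → ℕ → σ → σ} (hn : PT n) (hf : PT f)
    (hg : PT (fun p : α × (ℕ × σ) => g p.1 p.2.1 p.2.2)) {B : α → ℕ} (hB : Bdd B)
    (h : ∀ a, ∀ m ≤ n a, sz (Nat.rec (motive := fun _ => σ) (f a) (g a) m) ≤ B a) :
    PT (fun a => Nat.rec (motive := fun _ => σ) (f a) (g a) (n a)) := by
  -- state: remaining number of steps, current index, value
  let step : α → (ℕ × (ℕ × σ)) → (ℕ × (ℕ × σ)) := fun a s =>
    Nat.casesOn (motive := fun _ => ℕ × (ℕ × σ)) s.1 s (fun r => (r, (s.2.1 + 1, g a s.2.1 s.2.2)))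
  have hstep : PT (fun p : α × (ℕ × (ℕ × σ)) => step p.1 p.2) := by
    refine PT.natCases (n := fun p : α × (ℕ × (ℕ × σ)) => p.2.1) (f := fun p => p.2)
      (g := fun p r => (r, (p.2.2.1 + 1, g p.1 p.2.2.1 p.2.2.2))) PT.id.snd.fst PT.id.snd ?_
    refine PT.pair PT.id.snd (PT.pair (PT.succ PT.id.fst.snd.snd.fst) ?_)
    exact PT.comp hg (PT.pair PT.id.fst.fst (PT.pair PT.id.fst.snd.snd.fst
      PT.id.fst.snd.snd.snd))
  have key : ∀ a (m : ℕ), m ≤ n a →
      (step a)^[m] (n a, (0, f a)) = (n a - m, (m, Nat.rec (f a) (g a) m)) := by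
    intro a m
    induction m with
    | zero => intro _; rfl
    | succ m ih =>
      intro hm
      rw [iterate_succ_apply', ih (by omega)]
      obtain ⟨r, hr⟩ : ∃ r, n a - m = r + 1 := ⟨n a - m - 1, by omega⟩
      have e : n a - (m + 1) = r := by omega
      simp only [step, hr, e]
  have key2 : ∀ a (m : ℕ), n a ≤ m →
      (step a)^[m] (n a, (0, f a)) = (0, (n a, Nat.rec (f a) (g a) (n a))) := by
    intro a m hm
    induction m, hm using Nat.le_induction with
    | base => rw [key a _ le_rfl]; simp
    | succ m hm ih =>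
      rw [iterate_succ_apply', ih]
      rfl
  have h1 : PT (fun a => (step a)^[sz (n a)] (n a, (0, f a))) := by
    refine PT.iterSize (B := fun a => sz (n a) + sz (n a) + B a + 2) hn
      (PT.pair hn (PT.pair (PT.const 0) hf)) hstep
      (((hn.bdd.add hn.bdd).add hB).add (Bdd.const 2)) ?_
    intro a m _
    rcases le_total m (n a) with hm | hm
    · rw [key a m hm]
      have := h a m hm
      simp only [sz_pair, sz_nat]
      omega
    · rw [key2 a m hm]
      have := h a _ le_rfl
      simp only [sz_pair, sz_nat]
      omega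
  refine h1.snd.snd.congr fun a => ?_
  rw [key2 a _ (by rw [sz_nat]; omega)]

/-- Left fold with a size bound. -/
theorem PT.foldl {l : α → List β} {f : α → σ} {g : α → σ → β → σ} (hl : PT l) (hf : PT f)
    (hg : PT (fun p : α × (σ × β) => g p.1 p.2.1 p.2.2)) {B : α → ℕ} (hB : Bdd B)
    (h : ∀ a, ∀ l', l' <+: l a → sz (l'.foldl (g a) (f a)) ≤ B a) :
    PT (fun a => (l a).foldl (g a) (f a)) := by
  let step : α → (List β × σ) → (List β × σ) := fun a s =>
    List.casesOn (motive := fun _ => List β × σ) s.1 s (fun b r => (r, g a s.2 b))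
  have hstep : PT (fun p : α × (List β × σ) => step p.1 p.2) := by
    refine PT.listCases (l := fun p : α × (List β × σ) => p.2.1) (f := fun p => p.2)
      (g := fun p b r => (r, g p.1 p.2.2 b)) PT.id.snd.fst PT.id.snd ?_
    refine PT.pair PT.id.snd.snd ?_
    exact PT.comp hg (PT.pair PT.id.fst.fst (PT.pair PT.id.fst.snd.snd PT.id.snd.fst))
  have key : ∀ a (m : ℕ),
      (step a)^[m] (l a, f a) = ((l a).drop m, ((l a).take m).foldl (g a) (f a)) := by
    intro a m
    induction m with
    | zero => simp
    | succ m ih =>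
      rw [iterate_succ_apply', ih]
      rcases lt_or_ge m (l a).length with hm | hm
      · have e1 : (l a).drop m = (l a)[m] :: (l a).drop (m + 1) :=
          List.drop_eq_getElem_cons hm
        have e2 : (l a).take (m + 1) = (l a).take m ++ [(l a)[m]] := by
          rw [List.take_append_getElem hm]
        simp only [step, e1, e2, List.foldl_append, List.foldl_cons, List.foldl_nil]
      · have e1 : (l a).drop m = [] := List.drop_eq_nil_of_le hm
        have e2 : (l a).drop (m + 1) = [] := List.drop_eq_nil_of_le (by omega)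
        have e3 : (l a).take (m + 1) = (l a).take m := by
          rw [List.take_of_length_le hm, List.take_of_length_le (by omega)]
        simp only [step, e1, e2, e3]
  have h1 : PT (fun a => (step a)^[sz (l a)] (l a, f a)) := by
    refine PT.iterSize (B := fun a => sz (l a) + B a + 1) hl (PT.pair hl hf) hstep
      ((hl.bdd.add hB).add (Bdd.const 1)) ?_
    intro a m _
    rw [key a m]
    have h1 := h a _ (List.take_prefix m (l a))
    have h2 := sz_sublist (List.drop_sublist m (l a))
    simp only [sz_pair]
    omega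
  refine h1.snd.congr fun a => ?_
  rw [key a, List.take_of_length_le (length_le_sz _)]

end basic

end Pool.Agent.PolyTime
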