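import Pool.Agent.Lib.PolyTime.Tree

/-!
# Polynomial-time computable families of trees

`Comp x y` says that some stack program turns `x j` into `y j` in time polynomial in the size
of `x j`, uniformly in the index `j`.
-/

namespace Pool.Agent.PolyTime

open Turing Function Polynomial

theorem poly_mono (p : Polynomial ℕ) {a b : ℕ} (h : a ≤ b) : p.eval a ≤ p.eval b := by
  induction p using Polynomial.induction_on' with
  | add p q hp hq => simp only [eval_add]; exact Nat.add_le_add hp hq
  | monomial n c =>
    simp only [eval_monomial]
    exact Nat.mul_le_mul_left _ (Nat.pow_le_pow_left h _)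

/-- Polynomial-time computability of `y` from `x`. -/
def Comp {ι : Type*} (x y : ι → T) : Prop :=
  ∃ (p : P) (b : Polynomial ℕ), ∀ (j : ι) (i o : List Bool) (d e c n : List (Option Bool)),
    Run p (st i o (tenc (x j) ++ d) e c n) (st i o (tenc (y j) ++ d) e c n)
      (b.eval (x j).size)

section
variable {ι κ : Type*} {x y z : ι → T}

theorem Comp.size_le (h : Comp x y) :
    ∃ q : Polynomial ℕ, ∀ j, (y j).size ≤ q.eval (x j).size := by
  obtain ⟨p, b, h⟩ := h
  refine ⟨X + b, fun j => ?_⟩
  obtain ⟨m, hm, hj⟩ := h j [] [] [] [] [] []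
  have := hj.length_le .dat
  simp only [st_dat, List.append_nil, length_tenc] at this
  simp only [eval_add, eval_X]
  omega

theorem Comp.congr {x' y' : ι → T} (h : Comp x y) (hx : ∀ j, x j = x' j)
    (hy : ∀ j, y j = y' j) : Comp x' y' := by
  rw [← funext hx, ← funext hy]; exact h

theorem Comp.sub (h : Comp x y) (φ : κ → ι) : Comp (fun j => x (φ j)) (fun j => y (φ j)) := by
  obtain ⟨p, b, h⟩ := h
  exact ⟨p, b, fun j => h (φ j)⟩

theorem Comp.id : Comp x x := ⟨.skip, 0, fun _ _ _ _ _ _ _ => Run.skip _ _⟩

theorem Comp.comp (h1 : Comp x y) (h2 : Comp y z) : Comp x z := by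
  obtain ⟨q, hq⟩ := h1.size_le
  obtain ⟨p1, b1, h1⟩ := h1
  obtain ⟨p2, b2, h2⟩ := h2
  refine ⟨.seq p1 p2, b1 + b2.comp q, fun j i o d e c n => ?_⟩
  refine (Run.seq (h1 j i o d e c n) (h2 j i o d e c n)).mono ?_
  simp only [eval_add, eval_comp]
  exact Nat.add_le_add_left (poly_mono b2 (hq j)) _

theorem Comp.const (t : T) : Comp x (fun _ => t) := by
  refine ⟨.seq drop (pushWord t.enc), 6 * X + C (5 + t.size), fun j i o d e c n => ?_⟩
  have h1 := run_drop i o (x j) d e c n
  have h2 := run_pushWord i o t.enc d e c n
  refine (Run.seq h1 h2).mono ?_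
  simp only [T.length_enc, eval_add, eval_mul, eval_X, eval_C]
  simp only [eval_ofNat]
  omega

theorem Comp.pair (h1 : Comp x y) (h2 : Comp x z) :
    Comp x (fun j => .cons (y j) (z j)) := by
  obtain ⟨q, hq⟩ := h2.size_le
  obtain ⟨p1, b1, h1⟩ := h1
  obtain ⟨p2, b2, h2⟩ := h2
  refine ⟨.seq dup (.seq p2 (.seq swap (.seq p1 (.push .dat (some true))))),
    (12 * X + 9) + (b2 + ((7 * q + 11 * X + 14) + (b1 + 1))), fun j i o d e c n => ?_⟩
  have r1 := run_dup i o (x j) d e c n
  have r2 := h2 j i o (tenc (x j) ++ d) e c n
  have r3 := run_swap i o (z j) (x j) d e c n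
  have r4 := h1 j i o (tenc (z j) ++ d) e c n
  have r5 := run_push_dat i o (some true) (tenc (y j) ++ (tenc (z j) ++ d)) e c n
  have e1 : tenc (T.cons (y j) (z j)) ++ d =
      some true :: (tenc (y j) ++ (tenc (z j) ++ d)) := by simp
  rw [e1]
  refine (Run.seq r1 (Run.seq r2 (Run.seq r3 (Run.seq r4 r5)))).mono ?_
  simp only [eval_add, eval_mul, eval_X, eval_one, eval_ofNat]
  have := hq j
  omega

theorem Comp.fst : Comp (fun j => .cons (x j) (y j)) x := by
  refine ⟨.seq pop1 (.seq swap drop), 30 * X + 30, fun j i o d e c n => ?_⟩
  have r1 := run_pop1 i o (some true) (tenc (x j) ++ (tenc (y j) ++ d)) e c n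
  have r2 := run_swap i o (x j) (y j) d e c n
  have r3 := run_drop i o (y j) (tenc (x j) ++ d) e c n
  have e1 : tenc (T.cons (x j) (y j)) ++ d =
      some true :: (tenc (x j) ++ (tenc (y j) ++ d)) := by simp
  rw [e1]
  refine (Run.seq r1 (Run.seq r2 r3)).mono ?_
  simp only [eval_add, eval_mul, eval_X, eval_ofNat, T.size]
  omega

theorem Comp.snd : Comp (fun j => .cons (x j) (y j)) y := by
  refine ⟨.seq pop1 drop, 30 * X + 30, fun j i o d e c n => ?_⟩
  have r1 := run_pop1 i o (some true) (tenc (x j) ++ (tenc (y j) ++ d)) e c n
  have r3 := run_drop i o (x j) (tenc (y j) ++ d) e c n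
  have e1 : tenc (T.cons (x j) (y j)) ++ d =
      some true :: (tenc (x j) ++ (tenc (y j) ++ d)) := by simp
  rw [e1]
  refine (Run.seq r1 r3).mono ?_
  simp only [eval_add, eval_mul, eval_X, eval_ofNat, T.size]
  omega

/-- Case distinction on whether a computed tree is `nil`. -/
theorem Comp.case {l : ι → T} (hl : Comp x l)
    (h0 : Comp (fun j : {j // l j = .nil} => x j) (fun j => y j))
    (h1 : Comp (fun j : {j // l j ≠ .nil} => .cons (x j) (l j)) (fun j => y j)) :
    Comp x y := by
  obtain ⟨q, hq⟩ := hl.size_le
  obtain ⟨pl, bl, hl⟩ := hl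
  obtain ⟨p0, b0, h0⟩ := h0
  obtain ⟨p1, b1, h1⟩ := h1
  refine ⟨.seq dup (.seq pl (.popCase .dat fun r => match r.getD none with
    | some true => .seq (.push .dat (some true)) (.seq swap (.seq (.push .dat (some true)) p1))
    | _ => p0)),
    (12 * X + 9) + (bl + ((b0 + (1 + ((7 * q + 11 * X + 14) + (1 + b1.comp (X + q + 1))))) + 1)),
    fun j i o d e c n => ?_⟩
  have r1 := run_dup i o (x j) d e c n
  have r2 := hl j i o (tenc (x j) ++ d) e c n
  simp only [eval_add, eval_mul, eval_X, eval_one, eval_ofNat, eval_comp]
  refine Run.seq r1 (Run.seq r2 (Run.popCase ?_))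
  cases hlj : l j with
  | nil =>
    simp only [st_dat, tenc_nil, List.cons_append, List.nil_append, List.head?_cons,
      Option.getD_some, List.tail_cons, update_dat]
    exact (h0 ⟨j, hlj⟩ i o d e c n).mono (Nat.le_add_right _ _)
  | cons u v =>
    simp only [st_dat, tenc_cons, List.cons_append, List.head?_cons,
      Option.getD_some, List.tail_cons, update_dat]
    have r3 := run_push_dat i o (some true) (tenc u ++ tenc v ++ (tenc (x j) ++ d)) e c n
    have r4 := run_swap i o (l j) (x j) d e c n
    have r5 := run_push_dat i o (some true) (tenc (x j) ++ (tenc (l j) ++ d)) e c n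
    have r6 := h1 ⟨j, by rw [hlj]; simp⟩ i o d e c n
    have e1 : some true :: (tenc u ++ tenc v ++ (tenc (x j) ++ d)) =
      tenc (l j) ++ (tenc (x j) ++ d) := by rw [hlj]; simp
    have e2 : some true :: (tenc (x j) ++ (tenc (l j) ++ d)) =
      tenc (T.cons (x j) (l j)) ++ d := by simp
    rw [e1] at r3
    rw [e2] at r5
    have hq' := hq j
    have e3 : b1.eval (T.cons (x j) (l j)).size ≤
        b1.eval ((x j).size + q.eval (x j).size + 1) :=
      poly_mono b1 (by simp only [T.size]; omega)
    refine (Run.seq r3 (Run.seq r4 (Run.seq r5 r6))).mono ?_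
    simp only [] at e3 ⊢
    omega

/-- Bounded iteration: apply a step function as many times as the size of a given tree. -/
theorem Comp.iter {s : κ → T} {next : κ → κ} (h : Comp s (fun k => s (next k)))
    {k : ι → κ} (q : Polynomial ℕ)
    (hq : ∀ j, ∀ m ≤ (x j).size,
      (s (next^[m] (k j))).size ≤ q.eval (T.cons (x j) (s (k j))).size) :
    Comp (fun j => .cons (x j) (s (k j))) (fun j => s (next^[(x j).size] (k j))) := by
  obtain ⟨p, b, h⟩ := h
  refine ⟨.seq pop1 (.seq readTree (.seq (.push .itr none) (.seq auxToItr (rep p)))),
    1 + ((5 * X + 4) + (1 + ((2 * X + 1) + (X * (b.comp q + 1) + 1)))),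
    fun j i o d e c n => ?_⟩
  have r1 := run_pop1 i o (some true) (tenc (x j) ++ (tenc (s (k j)) ++ d)) e c n
  have r2 := run_readTree i o (x j) (tenc (s (k j)) ++ d) e c n
  rw [tenc_reverse] at r2
  have r3 : Run (.push .itr none)
    (st i o (tenc (s (k j)) ++ d) ((x j).enc.reverse.map some ++ (none :: e)) c n)
    (st i o (tenc (s (k j)) ++ d) ((x j).enc.reverse.map some ++ (none :: e)) c (none :: n)) 1 :=
    Run.push (by simp)
  have r4 := run_auxToItr i o (tenc (s (k j)) ++ d) e c (none :: n) (x j).enc
  have r5 := run_rep p i o e c n (b.eval (q.eval (T.cons (x j) (s (k j))).size)) (x j).size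
    (fun m => tenc (s (next^[m] (k j))) ++ d) (by
      intro m hm n'
      have := h (next^[m] (k j)) i o d e c n'
      simp only [iterate_succ', comp_apply]
      exact this.mono (poly_mono b (hq j m hm.le)))
  have e1 : tenc (T.cons (x j) (s (k j))) ++ d =
      some true :: (tenc (x j) ++ (tenc (s (k j)) ++ d)) := by simp
  rw [e1]
  rw [T.length_enc] at r4
  refine (Run.seq r1 (Run.seq r2 (Run.seq r3 (Run.seq r4 r5)))).mono ?_
  simp only [eval_add, eval_mul, eval_X, eval_one, eval_ofNat, eval_comp, T.size]
  have hx : (x j).size ≤ (x j).size + (s (k j)).size + 1 := by omega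
  have := Nat.mul_le_mul_right
    (b.eval (q.eval ((x j).size + (s (k j)).size + 1)) + 1) hx
  omega

end

/-- Types whose elements are represented by trees. -/
class Rep (α : Type*) where
  /-- The tree representing an element. -/
  toT : α → T

export Rep (toT)

instance : Rep T := ⟨_root_.id⟩

@[simp] theorem toT_T (t : T) : toT t = t := rfl

/-- The bit string representing an element. -/
def encode {α : Type*} [Rep α] (a : α) : List Bool := (toT a).enc

/-- The size of an element: the length of its bit string. -/
def sz {α : Type*} [Rep α] (a : α) : ℕ := (toT a).size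

theorem length_encode {α : Type*} [Rep α] (a : α) : (encode a).length = sz a :=
  T.length_enc _

/-- Polynomial-time computable functions between represented types. -/
def PT {α β : Type*} [Rep α] [Rep β] (f : α → β) : Prop :=
  Comp (fun a : α => toT a) (fun a => toT (f a))

/-- Copy the input stack to `aux`. -/
def inpToAux : P := .loop .inp (fun _ => false) (fun a => .push .aux (some a))

theorem run_inpToAux (o : List Bool) (d e c n : List (Option Bool)) (w : List Bool) :
    Run inpToAux (st w o d e c n) (st [] o d (w.reverse.map some ++ e) c n)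
      (2 * w.length + 1) := by
  induction w generalizing e with
  | nil => exact Run.loop_nil rfl
  | cons a w ih =>
    refine Run.mono (b := 1 + (2 * w.length + 1) + 1) ?_ (by simp; omega)
    have h := ih (some a :: e)
    simp only [List.reverse_cons, List.map_append, List.map_cons, List.map_nil,
      List.append_assoc, List.cons_append, List.nil_append]
    exact Run.loop_step (k := .inp) (s1 := st w o d e c n) (s' := st w o d (some a :: e) c n)
      (a := a) rfl rfl (by simp) (Run.push (by simp)) h

/-- Copy `dat` to `aux` completely. -/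
def datToAux : P := .loop .dat (fun _ => false) (fun a => .push .aux a)

theorem run_datToAux (i o : List Bool) (e c n : List (Option Bool)) (w : List Bool) :
    Run datToAux (st i o (w.map some) e c n) (st i o [] (w.reverse.map some ++ e) c n)
      (2 * w.length + 1) := by
  induction w generalizing e with
  | nil => exact Run.loop_nil rfl
  | cons a w ih =>
    refine Run.mono (b := 1 + (2 * w.length + 1) + 1) ?_ (by simp; omega)
    have h := ih (some a :: e)
    simp only [List.reverse_cons, List.map_append, List.map_cons, List.map_nil,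
      List.append_assoc, List.cons_append, List.nil_append]
    exact Run.loop_step (k := .dat) (s1 := st i o (w.map some) e c n)
      (s' := st i o (w.map some) (some a :: e) c n)
      (a := some a) rfl rfl (by simp) (Run.push (by simp)) h

/-- Copy `aux` to the output stack. -/
def auxToOut : P := .loop .aux (fun a => a == none) (fun a => .push .out (a.getD false))

theorem run_auxToOut (i o : List Bool) (d e c n : List (Option Bool)) (w : List Bool) :
    Run auxToOut (st i o d (w.reverse.map some ++ (none :: e)) c n)
      (st i (w ++ o) d e c n) (2 * w.length + 1) := by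
  induction w using List.reverseRecOn generalizing o with
  | nil => exact Run.loop_stop (k := .aux) (a := none) (l := e) rfl rfl (by simp)
  | append_singleton w a ih =>
    refine Run.mono (b := 1 + (2 * w.length + 1) + 1) ?_ (by simp; omega)
    have h := ih (a :: o)
    simp only [List.reverse_append, List.reverse_cons, List.reverse_nil, List.nil_append,
      List.map_cons, List.cons_append, List.append_assoc]
    exact Run.loop_step (k := .aux)
      (s1 := st i o d (w.reverse.map some ++ (none :: e)) c n)
      (s' := st i (a :: o) d (w.reverse.map some ++ (none :: e)) c n)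
      (a := some a) rfl rfl (by simp) (Run.push (by simp)) h

/-- The whole program: read the input, run `p`, write the output. -/
def wrap (p : P) : P :=
  .seq (.push .aux none) (.seq inpToAux (.seq auxToDat (.seq p
    (.seq (.push .aux none) (.seq datToAux auxToOut)))))

theorem run_wrap {p : P} {t u : T} {b : ℕ}
    (h : Run p (st [] [] (tenc t) [] [] []) (st [] [] (tenc u) [] [] []) b) :
    Run (wrap p) (st t.enc [] [] [] [] []) (st [] u.enc [] [] [] [])
      (4 * t.size + b + 4 * u.size + 6) := by
  have r1 : Run (.push .aux none) (st t.enc [] [] [] [] []) (st t.enc [] [] [none] [] []) 1 :=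
    Run.push (by simp)
  have r2 := run_inpToAux [] [] [none] [] [] t.enc
  have r3 := run_auxToDat [] [] [] [] [] [] t.enc
  rw [List.append_nil] at r3
  have r4 : Run (.push .aux none) (st [] [] (tenc u) [] [] [])
    (st [] [] (tenc u) [none] [] []) 1 := Run.push (by simp)
  have r5 := run_datToAux [] [] [none] [] [] u.enc
  have r6 := run_auxToOut [] [] [] [] [] [] u.enc
  rw [List.append_nil] at r6
  refine (Run.seq r1 (Run.seq r2 (Run.seq r3 (Run.seq h (Run.seq r4
    (Run.seq r5 r6)))))).mono ?_
  simp only [T.length_enc]; omega

/-- The machine of a program. -/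
noncomputable def machine (p : P) : FinTM2 :=
  haveI := Lab.fintype p
  { K := Stk
    k₀ := .inp
    k₁ := .out
    Γ := Sym
    Λ := Option (Lab p)
    main := entry p some none
    σ := Reg Sym
    initialState := fun _ => none
    m := fun l => match l with
      | some l => code p some none l
      | none => .load (fun _ _ => none) .halt }

/-- The main theorem of the library: functions computed by our programs are polynomial-time
computable in the sense of Mathlib. -/
theorem PT.tm2 {α β : Type} [Rep α] [Rep β] {f : α → β} (h : PT f) :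
    Nonempty (TM2ComputableInPolyTime (encode (α := α)) (encode (α := β)) f) := by
  obtain ⟨q, hq⟩ := h.size_le
  obtain ⟨p, b, h⟩ := h
  refine ⟨{ tm := machine (wrap p)
            inputAlphabet := Equiv.refl _
            outputAlphabet := Equiv.refl _
            time := 4 * X + b + 4 * q + 6 + 1
            outputsFun := fun a => ?_ }⟩
  have h1 := h a [] [] [] [] [] []
  rw [List.append_nil, List.append_nil] at h1
  have h2 := run_wrap h1
  have hm : ∃ m ≤ 4 * (toT a).size + eval (toT a).size b + 4 * (toT (f a)).size + 6,
      Exec (wrap p) (st (toT a).enc [] [] [] [] []) (st [] (toT (f a)).enc [] [] [] []) m := h2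
  have hs : ∃ m, m ≤ 4 * (toT a).size + eval (toT a).size b + 4 * (toT (f a)).size + 6 ∧
      ∃ v, Reach (machine (wrap p)).m m
        ⟨some (machine (wrap p)).main, (machine (wrap p)).initialState,
          st (toT a).enc [] [] [] [] []⟩
        ⟨some none, v, st [] (toT (f a)).enc [] [] [] []⟩ := by
    obtain ⟨m, hm, hE⟩ := hm
    obtain ⟨v, hv⟩ := sim (machine (wrap p)).m hE some none (fun _ => rfl)
      (fun _ => none)
    exact ⟨m, hm, v, hv⟩
  classical
  let m := Classical.choose hs
  have hm' := Classical.choose_spec hs
  refine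
    { steps := Classical.choose hs + 1
      evals_in_steps := ?_
      steps_le_m := ?_ }
  · obtain ⟨v, hv⟩ := hm'.2
    have h3 : Reach (machine (wrap p)).m 1
        ⟨some none, v, st [] (toT (f a)).enc [] [] [] []⟩
        ⟨none, fun _ => none, st [] (toT (f a)).enc [] [] [] []⟩ := Reach.one rfl
    have h4 := hv.trans h3
    have i1 : initList (machine (wrap p)) (List.map (Equiv.refl _).invFun (encode a)) =
        ⟨some (machine (wrap p)).main, (machine (wrap p)).initialState,
          st (toT a).enc [] [] [] [] []⟩ := by
      unfold initList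
      congr 1
      funext k
      cases k
      · simp [machine, encode]
      all_goals rfl
    have i2 : haltList (machine (wrap p)) (List.map (Equiv.refl _).invFun (encode (f a))) =
        ⟨none, fun _ => none, st [] (toT (f a)).enc [] [] [] []⟩ := by
      unfold haltList
      congr 1
      funext k
      cases k
      · rfl
      · simp [machine, encode]
      all_goals rfl
    unfold Reach at h4
    exact (congrArg (fun z => (flip bind (TM2.step (machine (wrap p)).m))^[
      Classical.choose hs + 1] (some z)) i1).trans (h4.trans (congrArg some i2.symm))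
  · have h5 := hm'.1
    have h6 := hq a
    simp only [eval_add, eval_mul, eval_X, eval_ofNat, eval_one, length_encode, sz]
    omega

end Pool.Agent.PolyTime
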