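import Mathlib.Computability.TuringMachine.Computable
import Mathlib.Tactic

/-!
# Structured stack programs and their compilation to `Turing.TM2` machines

A small imperative language over finitely many stacks, with a big-step cost semantics, and
a compiler to the flow-chart machines `Turing.TM2` of Mathlib.  The number of machine steps
is exactly the cost of the big-step semantics.
-/

namespace Pool.Agent.PolyTime

open Turing Function

variable {K : Type} [DecidableEq K] {Γ : K → Type}

/-- Structured programs over the stacks `k : K` with alphabets `Γ k`. -/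
inductive Prog (Γ : K → Type) : Type
  | skip : Prog Γ
  | push (k : K) (a : Γ k) : Prog Γ
  | seq (p q : Prog Γ) : Prog Γ
  | popCase (k : K) (f : Option (Γ k) → Prog Γ) : Prog Γ
  | loop (k : K) (stop : Γ k → Bool) (f : Γ k → Prog Γ) : Prog Γ

/-- Big-step semantics with costs: `Exec p s s' t` says that `p` started in `s` ends
in `s'` after `t` steps. -/
inductive Exec : Prog Γ → (∀ k, List (Γ k)) → (∀ k, List (Γ k)) → ℕ → Prop
  | skip (s : ∀ k, List (Γ k)) : Exec .skip s s 0
  | push (k : K) (a : Γ k) (s : ∀ k, List (Γ k)) :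
      Exec (.push k a) s (update s k (a :: s k)) 1
  | seq {p q : Prog Γ} {s s' s'' : ∀ k, List (Γ k)} {m n : ℕ} :
      Exec p s s' m → Exec q s' s'' n → Exec (.seq p q) s s'' (m + n)
  | popCase {k : K} {f : Option (Γ k) → Prog Γ} {s s' : ∀ k, List (Γ k)} {n : ℕ} :
      Exec (f (s k).head?) (update s k (s k).tail) s' n →
      Exec (.popCase k f) s s' (n + 1)
  | loop_nil {k : K} {stop : Γ k → Bool} {f : Γ k → Prog Γ} {s : ∀ k, List (Γ k)} :
      s k = [] → Exec (.loop k stop f) s s 1
  | loop_stop {k : K} {stop : Γ k → Bool} {f : Γ k → Prog Γ} {s : ∀ k, List (Γ k)}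
      {a : Γ k} {l : List (Γ k)} :
      s k = a :: l → stop a = true → Exec (.loop k stop f) s (update s k l) 1
  | loop_step {k : K} {stop : Γ k → Bool} {f : Γ k → Prog Γ} {s s' s'' : ∀ k, List (Γ k)}
      {a : Γ k} {l : List (Γ k)} {m n : ℕ} :
      s k = a :: l → stop a = false → Exec (f a) (update s k l) s' m →
      Exec (.loop k stop f) s' s'' n → Exec (.loop k stop f) s s'' (m + n + 1)

/-- A stack grows by at most one symbol per step. -/
theorem Exec.length_le {p : Prog Γ} {s s' : ∀ k, List (Γ k)} {t : ℕ} (h : Exec p s s' t)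
    (k : K) : (s' k).length ≤ (s k).length + t := by
  induction h with
  | skip s => simp
  | push k' a s =>
    by_cases hk : k = k'
    · subst hk; simp
    · simp [update_of_ne hk]
  | seq _ _ ih1 ih2 => omega
  | @popCase k' f s s' n _ ih =>
    by_cases hk : k = k'
    · subst hk
      simp only [update_self, List.length_tail] at ih
      omega
    · simp only [update_of_ne hk] at ih
      omega
  | loop_nil _ => omega
  | @loop_stop k' stop f s a l hs _ =>
    by_cases hk : k = k'
    · subst hk; simp [hs]; omega
    · simp [update_of_ne hk]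
  | @loop_step k' stop f s s' s'' a l m n hs _ _ _ ih1 ih2 =>
    by_cases hk : k = k'
    · subst hk
      simp only [update_self] at ih1
      have : (s k).length = l.length + 1 := by simp [hs]
      omega
    · simp only [update_of_ne hk] at ih1
      omega

/-- Control points of a program. -/
def Lab : Prog Γ → Type
  | .skip => Empty
  | .push _ _ => Unit
  | .seq p q => Lab p ⊕ Lab q
  | .popCase k f => Unit ⊕ (Σ a : Option (Γ k), Lab (f a))
  | .loop k _ f => Unit ⊕ (Σ a : Γ k, Lab (f a))

/-- There are finitely many control points. -/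
@[instance_reducible] noncomputable def Lab.fintype [∀ k, Fintype (Γ k)] : (p : Prog Γ) → Fintype (Lab p)
  | .skip => inferInstanceAs (Fintype Empty)
  | .push _ _ => inferInstanceAs (Fintype Unit)
  | .seq p q =>
    haveI := Lab.fintype p
    haveI := Lab.fintype q
    inferInstanceAs (Fintype (Lab p ⊕ Lab q))
  | .popCase k f =>
    haveI : ∀ a, Fintype (Lab (f a)) := fun a => Lab.fintype (f a)
    inferInstanceAs (Fintype (Unit ⊕ (Σ a : Option (Γ k), Lab (f a))))
  | .loop k _ f =>
    haveI : ∀ a, Fintype (Lab (f a)) := fun a => Lab.fintype (f a)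
    inferInstanceAs (Fintype (Unit ⊕ (Σ a : Γ k, Lab (f a))))

/-- The label at which the execution of `p` starts, if `ex` is the label to be reached
afterwards. -/
def entry {L : Type} : (p : Prog Γ) → (Lab p → L) → L → L
  | .skip, _, ex => ex
  | .push _ _, emb, _ => emb ()
  | .seq p q, emb, ex => entry p (fun l => emb (.inl l)) (entry q (fun l => emb (.inr l)) ex)
  | .popCase _ _, emb, _ => emb (.inl ())
  | .loop _ _ _, emb, _ => emb (.inl ())

/-- The registers of the compiled machine: the last symbol popped from each stack. -/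
abbrev Reg (Γ : K → Type) : Type := ∀ k, Option (Γ k)

/-- The code of the compiled machine at the control points of `p`. -/
def code {L : Type} : (p : Prog Γ) → (Lab p → L) → L → Lab p → TM2.Stmt Γ L (Reg Γ)
  | .skip, _, _, l => nomatch l
  | .push k a, _, ex, _ => .push k (fun _ => a) (.goto fun _ => ex)
  | .seq p q, emb, ex, .inl l =>
    code p (fun l => emb (.inl l)) (entry q (fun l => emb (.inr l)) ex) l
  | .seq _ q, emb, ex, .inr l => code q (fun l => emb (.inr l)) ex l
  | .popCase k f, emb, ex, .inl _ =>
    .pop k (fun v o => update v k o)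
      (.goto fun v => entry (f (v k)) (fun l => emb (.inr ⟨v k, l⟩)) ex)
  | .popCase _ f, emb, ex, .inr ⟨a, l⟩ => code (f a) (fun l => emb (.inr ⟨a, l⟩)) ex l
  | .loop k stop f, emb, ex, .inl _ =>
    .pop k (fun v o => update v k o)
      (.goto fun v => match v k with
        | none => ex
        | some a => if stop a then ex
            else entry (f a) (fun l => emb (.inr ⟨a, l⟩)) (emb (.inl ())))
  | .loop _ _ f, emb, _, .inr ⟨a, l⟩ =>
    code (f a) (fun l => emb (.inr ⟨a, l⟩)) (emb (.inl ())) l

/-- `Reach M t c c'`: the machine `M` goes from `c` to `c'` in exactly `t` steps. -/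
def Reach {L σ : Type} (M : L → TM2.Stmt Γ L σ) (t : ℕ) (c c' : TM2.Cfg Γ L σ) : Prop :=
  (flip bind (TM2.step M))^[t] (some c) = some c'

theorem Reach.refl {L σ : Type} (M : L → TM2.Stmt Γ L σ) (c : TM2.Cfg Γ L σ) :
    Reach M 0 c c := rfl

theorem Reach.trans {L σ : Type} {M : L → TM2.Stmt Γ L σ} {m n : ℕ}
    {c c' c'' : TM2.Cfg Γ L σ} (h1 : Reach M m c c') (h2 : Reach M n c' c'') :
    Reach M (m + n) c c'' := by
  unfold Reach at *
  rw [Nat.add_comm, iterate_add_apply, h1, h2]

theorem Reach.one {L σ : Type} {M : L → TM2.Stmt Γ L σ} {c c' : TM2.Cfg Γ L σ}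
    (h : TM2.step M c = some c') : Reach M 1 c c' := by
  unfold Reach
  simp [flip, h]

/-- The compiled code simulates the big-step semantics, step for step. -/
theorem sim {L : Type} (M : L → TM2.Stmt Γ L (Reg Γ)) {p : Prog Γ}
    {s s' : ∀ k, List (Γ k)} {t : ℕ} (h : Exec p s s' t) :
    ∀ (emb : Lab p → L) (ex : L), (∀ l, M (emb l) = code p emb ex l) →
      ∀ v : Reg Γ, ∃ v' : Reg Γ,
        Reach M t ⟨some (entry p emb ex), v, s⟩ ⟨some ex, v', s'⟩ := by
  induction h with
  | skip s => intro emb ex _ v; exact ⟨v, Reach.refl _ _⟩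
  | push k a s =>
    intro emb ex hM v
    refine ⟨v, Reach.one ?_⟩
    have := hM ()
    simp only [entry, TM2.step, this, code, TM2.stepAux]
  | @seq p q s s' s'' m n _ _ ih1 ih2 =>
    intro emb ex hM v
    obtain ⟨v1, h1⟩ := ih1 (fun l => emb (.inl l)) (entry q (fun l => emb (.inr l)) ex)
      (fun l => hM (.inl l)) v
    obtain ⟨v2, h2⟩ := ih2 (fun l => emb (.inr l)) ex (fun l => hM (.inr l)) v1
    exact ⟨v2, h1.trans h2⟩
  | @popCase k f s s' n _ ih =>
    intro emb ex hM v
    obtain ⟨v1, h1⟩ := ih (fun l => emb (.inr ⟨(s k).head?, l⟩)) ex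
      (fun l => hM (.inr ⟨(s k).head?, l⟩)) (update v k (s k).head?)
    refine ⟨v1, ?_⟩
    rw [Nat.add_comm]
    refine Reach.trans (Reach.one ?_) h1
    have := hM (.inl ())
    simp only [entry, TM2.step, this, code, TM2.stepAux]
    have e : ∀ w, w = (s k).head? →
        entry (f w) (fun l => emb (Sum.inr ⟨w, l⟩)) ex =
          entry (f (s k).head?) (fun l => emb (Sum.inr ⟨(s k).head?, l⟩)) ex := by
      rintro w rfl; rfl
    rw [e _ (update_self k _ v)]
  | @loop_nil k stop f s hs =>
    intro emb ex hM v
    refine ⟨update v k none, Reach.one ?_⟩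
    have := hM (.inl ())
    simp only [entry, TM2.step, this, code, TM2.stepAux, update_self, hs, List.head?_nil,
      List.tail_nil]
    congr 2
    rw [← hs, update_eq_self]
  | @loop_stop k stop f s a l hs ha =>
    intro emb ex hM v
    refine ⟨update v k (some a), Reach.one ?_⟩
    have := hM (.inl ())
    simp only [entry, TM2.step, this, code, TM2.stepAux, update_self, hs, List.head?_cons,
      List.tail_cons, ha, if_true]
  | @loop_step k stop f s s' s'' a l m n hs ha _ _ ih1 ih2 =>
    intro emb ex hM v
    obtain ⟨v1, h1⟩ := ih1 (fun l => emb (.inr ⟨a, l⟩)) (emb (.inl ()))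
      (fun l => hM (.inr ⟨a, l⟩)) (update v k (some a))
    obtain ⟨v2, h2⟩ := ih2 emb ex hM v1
    refine ⟨v2, ?_⟩
    rw [Nat.add_comm]
    refine Reach.trans (Reach.one ?_) (h1.trans h2)
    have := hM (.inl ())
    simp only [entry, TM2.step, this, code, TM2.stepAux, update_self, hs, List.head?_cons,
      List.tail_cons, ha]
    simp

end Pool.Agent.PolyTime
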