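import Pool.Agent.Lib.PolyTime.Machine

/-!
# Binary trees as universal data, and stack programs handling them
-/

namespace Pool.Agent.PolyTime

open Turing Function

/-- Binary trees (S-expressions without atoms): the universal data type. -/
inductive T : Type
  | nil : T
  | cons (a b : T) : T
  deriving DecidableEq

namespace T

/-- The bit string of a binary tree: `0` for `nil`, `1 u v` for `cons`. -/
def enc : T → List Bool
  | nil => [false]
  | cons a b => true :: (enc a ++ enc b)

/-- The size of a tree: its number of nodes, which is the length of its bit string. -/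
def size : T → ℕ
  | nil => 1
  | cons a b => size a + size b + 1

@[simp] theorem length_enc : ∀ t : T, (enc t).length = size t
  | nil => rfl
  | cons a b => by simp [enc, size, length_enc a, length_enc b]

theorem size_pos (t : T) : 1 ≤ size t := by cases t <;> simp [size]

/-- The encoding is a code in which no word begins another one. -/
theorem enc_append_inj : ∀ (a b : T) (u v : List Bool), enc a ++ u = enc b ++ v → a = b ∧ u = v
  | nil, nil, u, v, h => by simpa [enc] using h
  | nil, cons _ _, u, v, h => by simp [enc] at h
  | cons _ _, nil, u, v, h => by simp [enc] at h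
  | cons a b, cons c d, u, v, h => by
    simp only [enc, List.cons_append, List.cons.injEq, true_and, List.append_assoc] at h
    obtain ⟨h1, h2⟩ := enc_append_inj a c _ _ h
    obtain ⟨h3, h4⟩ := enc_append_inj b d _ _ h2
    exact ⟨by rw [h1, h3], h4⟩

theorem enc_injective : Injective enc := fun a b h =>
  (enc_append_inj a b [] [] (by simpa using h)).1

end T

/-- The stacks of our machines: input, output, data stack and three auxiliary ones. -/
inductive Stk : Type
  | inp | out | dat | aux | cnt | itr
  deriving DecidableEq

instance : Fintype Stk where
  elems := {.inp, .out, .dat, .aux, .cnt, .itr}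
  complete := by intro k; cases k <;> decide

/-- Input and output stacks carry bits; the working stacks carry bits and a separator
`none`. -/
@[reducible] def Sym : Stk → Type
  | .inp => Bool
  | .out => Bool
  | .dat => Option Bool
  | .aux => Option Bool
  | .cnt => Option Bool
  | .itr => Option Bool

instance Sym.fintype : (k : Stk) → Fintype (Sym k)
  | .inp => inferInstanceAs (Fintype Bool)
  | .out => inferInstanceAs (Fintype Bool)
  | .dat => inferInstanceAs (Fintype (Option Bool))
  | .aux => inferInstanceAs (Fintype (Option Bool))
  | .cnt => inferInstanceAs (Fintype (Option Bool))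
  | .itr => inferInstanceAs (Fintype (Option Bool))

/-- A state given by the contents of its six stacks. -/
def st (i o : List Bool) (d e c n : List (Option Bool)) : ∀ k, List (Sym k)
  | .inp => i
  | .out => o
  | .dat => d
  | .aux => e
  | .cnt => c
  | .itr => n

section
variable (i o : List Bool) (d e c n x : List (Option Bool)) (y : List Bool)

@[simp] theorem st_inp : st i o d e c n .inp = i := rfl
@[simp] theorem st_out : st i o d e c n .out = o := rfl
@[simp] theorem st_dat : st i o d e c n .dat = d := rfl
@[simp] theorem st_aux : st i o d e c n .aux = e := rfl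
@[simp] theorem st_cnt : st i o d e c n .cnt = c := rfl
@[simp] theorem st_itr : st i o d e c n .itr = n := rfl

@[simp] theorem update_inp : update (st i o d e c n) .inp y = st y o d e c n := by
  funext k; cases k <;> rfl
@[simp] theorem update_out : update (st i o d e c n) .out y = st i y d e c n := by
  funext k; cases k <;> rfl
@[simp] theorem update_dat : update (st i o d e c n) .dat x = st i o x e c n := by
  funext k; cases k <;> rfl
@[simp] theorem update_aux : update (st i o d e c n) .aux x = st i o d x c n := by
  funext k; cases k <;> rfl
@[simp] theorem update_cnt : update (st i o d e c n) .cnt x = st i o d e x n := by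
  funext k; cases k <;> rfl
@[simp] theorem update_itr : update (st i o d e c n) .itr x = st i o d e c x := by
  funext k; cases k <;> rfl
end

/-- Programs over our stacks. -/
abbrev P : Type := Prog Sym

/-- `Run p s s' b`: started in `s`, the program `p` ends in `s'` within `b` steps. -/
def Run (p : P) (s s' : ∀ k, List (Sym k)) (b : ℕ) : Prop := ∃ m ≤ b, Exec p s s' m

theorem Run.mono {p : P} {s s' : ∀ k, List (Sym k)} {b b' : ℕ} (h : Run p s s' b)
    (hb : b ≤ b') : Run p s s' b' := by
  obtain ⟨m, hm, h⟩ := h; exact ⟨m, hm.trans hb, h⟩

theorem Run.skip (s : ∀ k, List (Sym k)) (b : ℕ) : Run .skip s s b := ⟨0, Nat.zero_le _, .skip s⟩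

theorem Run.push {k : Stk} {a : Sym k} {s s' : ∀ k, List (Sym k)}
    (h : s' = update s k (a :: s k)) : Run (.push k a) s s' 1 := by
  subst h; exact ⟨1, le_refl _, .push k a s⟩

theorem Run.seq {p q : P} {s s' s'' : ∀ k, List (Sym k)} {b1 b2 : ℕ}
    (h1 : Run p s s' b1) (h2 : Run q s' s'' b2) : Run (.seq p q) s s'' (b1 + b2) := by
  obtain ⟨m1, hm1, h1⟩ := h1
  obtain ⟨m2, hm2, h2⟩ := h2
  exact ⟨m1 + m2, Nat.add_le_add hm1 hm2, .seq h1 h2⟩

theorem Run.popCase {k : Stk} {f : Option (Sym k) → P} {s s' : ∀ k, List (Sym k)} {b : ℕ}
    (h : Run (f (s k).head?) (update s k (s k).tail) s' b) :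
    Run (.popCase k f) s s' (b + 1) := by
  obtain ⟨m, hm, h⟩ := h
  exact ⟨m + 1, by omega, .popCase h⟩

theorem Run.loop_stop {k : Stk} {stop : Sym k → Bool} {f : Sym k → P}
    {s s' : ∀ k, List (Sym k)} {a : Sym k} {l : List (Sym k)}
    (hs : s k = a :: l) (ha : stop a = true) (h : s' = update s k l) :
    Run (.loop k stop f) s s' 1 := by
  subst h; exact ⟨1, le_refl _, .loop_stop hs ha⟩

theorem Run.loop_nil {k : Stk} {stop : Sym k → Bool} {f : Sym k → P}
    {s : ∀ k, List (Sym k)} (hs : s k = []) : Run (.loop k stop f) s s 1 :=
  ⟨1, le_refl _, .loop_nil hs⟩

theorem Run.loop_step {k : Stk} {stop : Sym k → Bool} {f : Sym k → P}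
    {s s1 s' s'' : ∀ k, List (Sym k)} {a : Sym k} {l : List (Sym k)} {b1 b2 : ℕ}
    (hs : s k = a :: l) (ha : stop a = false) (h : s1 = update s k l)
    (h1 : Run (f a) s1 s' b1) (h2 : Run (.loop k stop f) s' s'' b2) :
    Run (.loop k stop f) s s'' (b1 + b2 + 1) := by
  subst h
  obtain ⟨m1, hm1, h1⟩ := h1
  obtain ⟨m2, hm2, h2⟩ := h2
  exact ⟨m1 + m2 + 1, by omega, .loop_step hs ha h1 h2⟩

/-- Encoding of a tree on a working stack. -/
def tenc (t : T) : List (Option Bool) := t.enc.map some

@[simp] theorem tenc_nil : tenc .nil = [some false] := rfl
@[simp] theorem tenc_cons (a b : T) : tenc (.cons a b) = some true :: (tenc a ++ tenc b) := by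
  simp [tenc, T.enc]
@[simp] theorem length_tenc (t : T) : (tenc t).length = t.size := by simp [tenc]

/-- Body of the parsing loop: read one node of a tree from `dat`, put it on `aux`, and
update the number of pending subtrees on `cnt`. -/
def readBody : Option Bool → P
  | some true => .seq (.push .aux (some true))
      (.seq (.push .cnt (some true)) (.push .cnt (some true)))
  | some false => .push .aux (some false)
  | none => .skip

/-- The parsing loop. -/
def readLoop : P :=
  .loop .cnt (fun a => a == none) (fun _ => .popCase .dat fun r => readBody (r.getD none))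

/-- The parsing loop handles a tree on top of `dat` for one mark on `cnt`. -/
theorem run_readLoop (i o : List Bool) (n : List (Option Bool)) :
    ∀ (t : T) (d e c : List (Option Bool)) (s' : ∀ k, List (Sym k)) (m : ℕ),
      Run readLoop (st i o d ((tenc t).reverse ++ e) c n) s' m →
        Run readLoop (st i o (tenc t ++ d) e (some true :: c) n) s' (m + 5 * t.size) := by
  intro t
  induction t with
  | nil =>
    intro d e c s' m h
    refine Run.mono (b := (1 + 1) + m + 1) ?_ (by simp [T.size]; omega)
    refine Run.loop_step (k := .cnt) (s1 := st i o (tenc .nil ++ d) e c n)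
      (s' := st i o d ((tenc .nil).reverse ++ e) c n) (a := some true) (l := c) rfl rfl
      (by simp) ?_ h
    refine Run.popCase ?_
    simp only [st_dat, tenc_nil, List.cons_append, List.nil_append,
      List.head?_cons, Option.getD_some, List.tail_cons, update_dat, readBody]
    exact Run.push (by simp)
  | cons a b iha ihb =>
    intro d e c s' m h
    have h1 := ihb d ((tenc a).reverse ++ (some true :: e)) c s' m (by simpa using h)
    have h2 := iha (tenc b ++ d) (some true :: e) (some true :: c) s' _ h1
    refine Run.mono (b := (1 + (1 + 1)) + 1 + (m + 5 * b.size + 5 * a.size) + 1) ?_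
      (by simp only [T.size]; omega)
    refine Run.loop_step (k := .cnt) (s1 := st i o (tenc (.cons a b) ++ d) e c n)
      (s' := st i o (tenc a ++ (tenc b ++ d)) (some true :: e) (some true :: some true :: c) n)
      (a := some true) (l := c) rfl rfl (by simp) ?_ h2
    refine Run.popCase ?_
    simp only [st_dat, tenc_cons, List.cons_append, List.append_assoc,
      List.head?_cons, Option.getD_some, List.tail_cons, update_dat, readBody]
    exact Run.seq (Run.push rfl) (Run.seq (Run.push rfl) (Run.push (by simp)))

/-- Move the tree on top of `dat` to `aux`, reversed and with a separator below it. -/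
def readTree : P :=
  .seq (.push .aux none) (.seq (.push .cnt none) (.seq (.push .cnt (some true)) readLoop))

theorem run_readTree (i o : List Bool) (t : T) (d e c n : List (Option Bool)) :
    Run readTree (st i o (tenc t ++ d) e c n)
      (st i o d ((tenc t).reverse ++ (none :: e)) c n) (5 * t.size + 4) := by
  have h0 : Run readLoop (st i o d ((tenc t).reverse ++ (none :: e)) (none :: c) n)
      (st i o d ((tenc t).reverse ++ (none :: e)) c n) 1 :=
    Run.loop_stop (a := none) (l := c) rfl rfl (by simp)
  have h := run_readLoop i o n t d (none :: e) (none :: c) _ _ h0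
  refine Run.mono (b := 1 + (1 + (1 + (1 + 5 * t.size)))) ?_ (by omega)
  exact Run.seq (Run.push rfl) (Run.seq (Run.push rfl) (Run.seq (Run.push (by simp)) h))

/-- Move a marked block from `aux` to `dat`. -/
def auxToDat : P := .loop .aux (fun a => a == none) (fun a => .push .dat a)

theorem run_auxToDat (i o : List Bool) (d e c n : List (Option Bool)) (w : List Bool) :
    Run auxToDat (st i o d (w.reverse.map some ++ (none :: e)) c n)
      (st i o (w.map some ++ d) e c n) (2 * w.length + 1) := by
  induction w using List.reverseRecOn generalizing d with
  | nil => exact Run.loop_stop (a := none) (l := e) rfl rfl (by simp)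
  | append_singleton w a ih =>
    refine Run.mono (b := 1 + (2 * w.length + 1) + 1) ?_ (by simp; omega)
    have h := ih (some a :: d)
    simp only [List.reverse_append, List.reverse_cons, List.reverse_nil, List.nil_append,
      List.map_append, List.map_cons, List.map_nil, List.cons_append, List.append_assoc]
    exact Run.loop_step (s1 := st i o d (w.reverse.map some ++ (none :: e)) c n)
      (s' := st i o (some a :: d) (w.reverse.map some ++ (none :: e)) c n)
      (a := some a) rfl rfl (by simp) (Run.push (by simp)) h

/-- Move a marked block from `aux` to `cnt`. -/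
def auxToCnt : P := .loop .aux (fun a => a == none) (fun a => .push .cnt a)

theorem run_auxToCnt (i o : List Bool) (d e c n : List (Option Bool)) (w : List Bool) :
    Run auxToCnt (st i o d (w.reverse.map some ++ (none :: e)) c n)
      (st i o d e (w.map some ++ c) n) (2 * w.length + 1) := by
  induction w using List.reverseRecOn generalizing c with
  | nil => exact Run.loop_stop (a := none) (l := e) rfl rfl (by simp)
  | append_singleton w a ih =>
    refine Run.mono (b := 1 + (2 * w.length + 1) + 1) ?_ (by simp; omega)
    have h := ih (some a :: c)
    simp only [List.reverse_append, List.reverse_cons, List.reverse_nil, List.nil_append,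
      List.map_append, List.map_cons, List.map_nil, List.cons_append, List.append_assoc]
    exact Run.loop_step (s1 := st i o d (w.reverse.map some ++ (none :: e)) c n)
      (s' := st i o d (w.reverse.map some ++ (none :: e)) (some a :: c) n)
      (a := some a) rfl rfl (by simp) (Run.push (by simp)) h

/-- Move a marked block from `cnt` to `aux`. -/
def cntToAux : P := .loop .cnt (fun a => a == none) (fun a => .push .aux a)

theorem run_cntToAux (i o : List Bool) (d e c n : List (Option Bool)) (w : List Bool) :
    Run cntToAux (st i o d e (w.map some ++ (none :: c)) n)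
      (st i o d (w.reverse.map some ++ e) c n) (2 * w.length + 1) := by
  induction w generalizing e with
  | nil => exact Run.loop_stop (a := none) (l := c) rfl rfl (by simp)
  | cons a w ih =>
    refine Run.mono (b := 1 + (2 * w.length + 1) + 1) ?_ (by simp; omega)
    have h := ih (some a :: e)
    simp only [List.reverse_cons, List.map_append, List.map_cons, List.map_nil,
      List.cons_append, List.append_assoc, List.nil_append]
    exact Run.loop_step (s1 := st i o d e (w.map some ++ (none :: c)) n)
      (s' := st i o d (some a :: e) (w.map some ++ (none :: c)) n)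
      (a := some a) rfl rfl (by simp) (Run.push (by simp)) h

/-- Turn a marked block on `aux` into as many marks on `itr`. -/
def auxToItr : P := .loop .aux (fun a => a == none) (fun _ => .push .itr (some true))

theorem run_auxToItr (i o : List Bool) (d e c n : List (Option Bool)) (w : List Bool) :
    Run auxToItr (st i o d (w.reverse.map some ++ (none :: e)) c n)
      (st i o d e c (List.replicate w.length (some true) ++ n)) (2 * w.length + 1) := by
  induction w using List.reverseRecOn generalizing n with
  | nil => exact Run.loop_stop (a := none) (l := e) rfl rfl (by simp)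
  | append_singleton w a ih =>
    refine Run.mono (b := 1 + (2 * w.length + 1) + 1) ?_ (by simp; omega)
    have h := ih (some true :: n)
    have e1 : List.replicate (w ++ [a]).length (some true) ++ n =
        List.replicate w.length (some true) ++ (some true :: n) := by
      simp [List.replicate_succ']
    rw [e1]
    simp only [List.reverse_append, List.reverse_cons, List.reverse_nil, List.nil_append,
      List.map_cons, List.cons_append]
    exact Run.loop_step (s1 := st i o d (w.reverse.map some ++ (none :: e)) c n)
      (s' := st i o d (w.reverse.map some ++ (none :: e)) c (some true :: n))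
      (a := some a) rfl rfl (by simp) (Run.push (by simp)) h

/-- Delete a marked block on `aux`. -/
def auxDrop : P := .loop .aux (fun a => a == none) (fun _ => .skip)

theorem run_auxDrop (i o : List Bool) (d e c n : List (Option Bool)) (w : List Bool) :
    Run auxDrop (st i o d (w.map some ++ (none :: e)) c n)
      (st i o d e c n) (w.length + 1) := by
  induction w with
  | nil => exact Run.loop_stop (a := none) (l := e) rfl rfl (by simp)
  | cons a w ih =>
    refine Run.mono (b := 0 + (w.length + 1) + 1) ?_ (by simp)
    exact Run.loop_step (s1 := st i o d (w.map some ++ (none :: e)) c n)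
      (s' := st i o d (w.map some ++ (none :: e)) c n)
      (a := some a) rfl rfl (by simp) (Run.skip _ _) ih

theorem tenc_reverse (t : T) : (tenc t).reverse = t.enc.reverse.map some := by
  simp [tenc, List.map_reverse]

/-- Delete the tree on top of `dat`. -/
def drop : P := .seq readTree auxDrop

theorem run_drop (i o : List Bool) (t : T) (d e c n : List (Option Bool)) :
    Run drop (st i o (tenc t ++ d) e c n) (st i o d e c n) (6 * t.size + 5) := by
  have h1 := run_readTree i o t d e c n
  rw [tenc_reverse] at h1
  have h2 := run_auxDrop i o d e c n t.enc.reverse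
  refine (Run.seq h1 h2).mono ?_
  simp; omega

/-- Duplicate the tree on top of `dat`. -/
def dup : P :=
  .seq readTree (.seq (.push .cnt none) (.seq
    (.loop .aux (fun a => a == none) (fun a => .seq (.push .dat a) (.push .cnt a)))
    (.seq (.push .aux none) (.seq cntToAux auxToDat))))

theorem run_dup_aux (i o : List Bool) (d e c n : List (Option Bool)) (w : List Bool) :
    Run (.loop .aux (fun a => a == none) (fun a => .seq (.push .dat a) (.push .cnt a)))
      (st i o d (w.reverse.map some ++ (none :: e)) c n)
      (st i o (w.map some ++ d) e (w.map some ++ c) n) (3 * w.length + 1) := by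
  induction w using List.reverseRecOn generalizing d c with
  | nil => exact Run.loop_stop (a := none) (l := e) rfl rfl (by simp)
  | append_singleton w a ih =>
    refine Run.mono (b := (1 + 1) + (3 * w.length + 1) + 1) ?_ (by simp; omega)
    have h := ih (some a :: d) (some a :: c)
    simp only [List.reverse_append, List.reverse_cons, List.reverse_nil, List.nil_append,
      List.map_append, List.map_cons, List.map_nil, List.cons_append, List.append_assoc]
    exact Run.loop_step (s1 := st i o d (w.reverse.map some ++ (none :: e)) c n)
      (s' := st i o (some a :: d) (w.reverse.map some ++ (none :: e)) (some a :: c) n)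
      (a := some a) rfl rfl (by simp) (Run.seq (Run.push rfl) (Run.push (by simp))) h

theorem run_dup (i o : List Bool) (t : T) (d e c n : List (Option Bool)) :
    Run dup (st i o (tenc t ++ d) e c n) (st i o (tenc t ++ (tenc t ++ d)) e c n)
      (12 * t.size + 9) := by
  have h1 := run_readTree i o t d e c n
  rw [tenc_reverse] at h1
  have h2 : Run (.push .cnt none) (st i o d (t.enc.reverse.map some ++ (none :: e)) c n)
    (st i o d (t.enc.reverse.map some ++ (none :: e)) (none :: c) n) 1 := Run.push (by simp)
  have h3 := run_dup_aux i o d e (none :: c) n t.enc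
  have h4 : Run (.push .aux none) (st i o (t.enc.map some ++ d) e
      (t.enc.map some ++ (none :: c)) n)
    (st i o (t.enc.map some ++ d) (none :: e) (t.enc.map some ++ (none :: c)) n) 1 :=
    Run.push (by simp)
  have h5 := run_cntToAux i o (t.enc.map some ++ d) (none :: e) c n t.enc
  have h6 := run_auxToDat i o (t.enc.map some ++ d) e c n t.enc
  refine (Run.seq h1 (Run.seq h2 (Run.seq h3 (Run.seq h4 (Run.seq h5 h6))))).mono ?_
  simp only [T.length_enc]; omega

/-- Exchange the two topmost trees on `dat`. -/
def swap : P :=
  .seq readTree (.seq readTree (.seq (.push .cnt none) (.seq auxToCnt (.seq auxToDat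
    (.seq (.push .aux none) (.seq cntToAux auxToDat))))))

theorem run_swap (i o : List Bool) (x y : T) (d e c n : List (Option Bool)) :
    Run swap (st i o (tenc x ++ (tenc y ++ d)) e c n)
      (st i o (tenc y ++ (tenc x ++ d)) e c n) (7 * x.size + 11 * y.size + 14) := by
  have h1 := run_readTree i o x (tenc y ++ d) e c n
  have h2 := run_readTree i o y d ((tenc x).reverse ++ (none :: e)) c n
  rw [tenc_reverse] at h1 h2
  rw [tenc_reverse] at h2
  have h3 : Run (.push .cnt none)
    (st i o d (y.enc.reverse.map some ++ (none :: (x.enc.reverse.map some ++ (none :: e)))) c n)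
    (st i o d (y.enc.reverse.map some ++ (none :: (x.enc.reverse.map some ++ (none :: e))))
      (none :: c) n) 1 := Run.push (by simp)
  have h4 := run_auxToCnt i o d (x.enc.reverse.map some ++ (none :: e)) (none :: c) n y.enc
  have h5 := run_auxToDat i o d e (y.enc.map some ++ (none :: c)) n x.enc
  have h6 : Run (.push .aux none)
    (st i o (x.enc.map some ++ d) e (y.enc.map some ++ (none :: c)) n)
    (st i o (x.enc.map some ++ d) (none :: e) (y.enc.map some ++ (none :: c)) n) 1 :=
    Run.push (by simp)
  have h7 := run_cntToAux i o (x.enc.map some ++ d) (none :: e) c n y.enc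
  have h8 := run_auxToDat i o (x.enc.map some ++ d) e c n y.enc
  refine (Run.seq h1 (Run.seq h2 (Run.seq h3 (Run.seq h4 (Run.seq h5
    (Run.seq h6 (Run.seq h7 h8))))))).mono ?_
  simp only [T.length_enc]; omega

/-- Pop one symbol from `dat`. -/
def pop1 : P := .popCase .dat fun _ => .skip

theorem run_pop1 (i o : List Bool) (a : Option Bool) (d e c n : List (Option Bool)) :
    Run pop1 (st i o (a :: d) e c n) (st i o d e c n) 1 := by
  refine Run.popCase (b := 0) ?_
  simp only [st_dat, List.tail_cons, update_dat]
  exact Run.skip _ _

theorem run_push_dat (i o : List Bool) (a : Option Bool) (d e c n : List (Option Bool)) :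
    Run (.push .dat a) (st i o d e c n) (st i o (a :: d) e c n) 1 := Run.push (by simp)

/-- Push a fixed word on `dat`. -/
def pushWord : List Bool → P
  | [] => .skip
  | a :: w => .seq (pushWord w) (.push .dat (some a))

theorem run_pushWord (i o : List Bool) (w : List Bool) (d e c n : List (Option Bool)) :
    Run (pushWord w) (st i o d e c n) (st i o (w.map some ++ d) e c n) w.length := by
  induction w with
  | nil => exact Run.skip _ _
  | cons a w ih => exact (Run.seq ih (run_push_dat i o (some a) _ e c n))

/-- Repeat a program as often as there are marks on `itr`. -/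
def rep (p : P) : P := .loop .itr (fun a => a == none) (fun _ => p)

/-- `rep` runs through a chain of states of `dat`. -/
theorem run_rep (p : P) (i o : List Bool) (e c n : List (Option Bool)) (b : ℕ) :
    ∀ (m : ℕ) (D : ℕ → List (Option Bool)),
      (∀ j < m, ∀ n', Run p (st i o (D j) e c n') (st i o (D (j + 1)) e c n') b) →
      Run (rep p) (st i o (D 0) e c (List.replicate m (some true) ++ (none :: n)))
        (st i o (D m) e c n) (m * (b + 1) + 1) := by
  intro m
  induction m with
  | zero =>
    intro D _
    refine (Run.loop_stop (k := .itr) (a := none) (l := n) rfl rfl (by simp)).mono (by omega)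
  | succ m ih =>
    intro D h
    refine Run.mono (b := b + (m * (b + 1) + 1) + 1) ?_ (by
      have : (m + 1) * (b + 1) = m * (b + 1) + (b + 1) := by ring
      omega)
    refine Run.loop_step (k := .itr)
      (s1 := st i o (D 0) e c (List.replicate m (some true) ++ (none :: n)))
      (s' := st i o (D 1) e c (List.replicate m (some true) ++ (none :: n)))
      (a := some true) rfl rfl (by simp) (h 0 (by omega) _) ?_
    exact ih (fun j => D (j + 1)) (fun j hj n' => h (j + 1) (by omega) n')

end Pool.Agent.PolyTime
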